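import Pool.Agent.W_MP_e1f0eb_co.Upper2

open Finset Classical

namespace Pool.Agent.W_MP_e1f0eb_co

section Index

variable {ι : Type*} [Fintype ι]

/-- concurrent triples of lines, one of each direction -/
noncomputable def HH (u v w : ι → ℝ) : Finset (ι × ι × ι) :=
  univ.filter fun t => u t.1 + v t.2.1 + w t.2.2 = 0

/-- pairs comparable in both coordinates -/
noncomputable def Cs (f g : ι → ℝ) : Finset (ι × ι) :=
  univ.filter fun q => (f q.1 < f q.2 ∧ g q.1 < g q.2) ∨ (f q.2 < f q.1 ∧ g q.2 < g q.1)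

lemma Cs_card (f g : ι → ℝ) : (Cs f g).card ≤ 2 * (Cp f g).card := by
  have h : Cs f g ⊆ Cp f g ∪ (Cp f g).image Prod.swap := by
    rintro ⟨a, b⟩ hq
    simp only [Cs, mem_filter, mem_univ, true_and] at hq
    rw [mem_union]
    rcases hq with hq | hq
    · exact Or.inl (mem_Cp.2 hq)
    · exact Or.inr (mem_image.2 ⟨(b, a), mem_Cp.2 hq, rfl⟩)
  calc (Cs f g).card ≤ (Cp f g ∪ (Cp f g).image Prod.swap).card := card_le_card h
    _ ≤ (Cp f g).card + ((Cp f g).image Prod.swap).card := card_union_le _ _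
    _ ≤ (Cp f g).card + (Cp f g).card := Nat.add_le_add_left card_image_le _
    _ = 2 * (Cp f g).card := by ring

/-- THE PIGEONHOLE INEQUALITY: of the three lines through a point of concurrence two lie on the same
side of their points -/
theorem HH_TT {u v w : ι → ℝ} (hs : ∀ p, u p + v p + w p = 0) (hu : Function.Injective u)
    (hv : Function.Injective v) (hw : Function.Injective w) :
    (HH u v w).card + 2 * (TT u v w).card ≤ Fintype.card ι ^ 2 := by
  set off := (HH u v w).filter fun t => t.1 ≠ t.2.1 with hoff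
  -- the diagonal part
  have h1 : (HH u v w).card ≤ Fintype.card ι + off.card := by
    have e1 : ((HH u v w).filter fun t => ¬ t.1 ≠ t.2.1).card ≤ Fintype.card ι := by
      rw [← card_univ]
      apply card_le_card_of_injOn (fun t => t.1) (fun _ _ => mem_univ _)
      rintro ⟨i, j, k⟩ ht ⟨i', j', k'⟩ ht' e
      simp only [HH, coe_filter, mem_filter, mem_univ, true_and, Set.mem_ofPred_eq, not_not]
        at ht ht'
      obtain ⟨h2, rfl⟩ := ht
      obtain ⟨h2', rfl⟩ := ht'
      simp only at e h2 h2'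
      subst e
      have h3 : w k = w i := by linarith [hs i]
      have h4 : w k' = w i := by linarith [hs i]
      rw [hw h3, hw h4]
    have e2 := card_filter_add_card_filter_not (s := HH u v w) (fun t => t.1 ≠ t.2.1)
    rw [← hoff] at e2
    omega
  -- the three kinds of pairs
  set E1 := off.filter fun t => (u t.1 < u t.2.1 ∧ v t.1 < v t.2.1) ∨
    (u t.2.1 < u t.1 ∧ v t.2.1 < v t.1) with hE1
  set E2 := off.filter fun t => (v t.2.1 < v t.2.2 ∧ w t.2.1 < w t.2.2) ∨
    (v t.2.2 < v t.2.1 ∧ w t.2.2 < w t.2.1) with hE2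
  set E3 := off.filter fun t => (w t.2.2 < w t.1 ∧ u t.2.2 < u t.1) ∨
    (w t.1 < w t.2.2 ∧ u t.1 < u t.2.2) with hE3
  set T' := off.filter fun t => (t.2.1, t.1, t.2.2) ∈ TT u v w with hT'
  have c1 : E1.card ≤ (Cs u v).card := by
    apply card_le_card_of_injOn (fun t => (t.1, t.2.1))
    · intro t ht
      simp only [hE1, coe_filter, Set.mem_ofPred_eq] at ht
      simp only [Cs, coe_filter, mem_univ, true_and, Set.mem_ofPred_eq]
      exact ht.2
    · rintro ⟨i, j, k⟩ ht ⟨i', j', k'⟩ ht' e
      simp only [hE1, hoff, HH, coe_filter, mem_filter, mem_univ, true_and, Set.mem_ofPred_eq]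
        at ht ht'
      simp only [Prod.mk.injEq] at e
      obtain ⟨rfl, rfl⟩ := e
      have h3 : w k = w k' := by linarith [ht.1.1, ht'.1.1]
      rw [hw h3]
  have c2 : E2.card ≤ (Cs v w).card := by
    apply card_le_card_of_injOn (fun t => (t.2.1, t.2.2))
    · intro t ht
      simp only [hE2, coe_filter, Set.mem_ofPred_eq] at ht
      simp only [Cs, coe_filter, mem_univ, true_and, Set.mem_ofPred_eq]
      exact ht.2
    · rintro ⟨i, j, k⟩ ht ⟨i', j', k'⟩ ht' e
      simp only [hE2, hoff, HH, coe_filter, mem_filter, mem_univ, true_and, Set.mem_ofPred_eq]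
        at ht ht'
      simp only [Prod.mk.injEq] at e
      obtain ⟨rfl, rfl⟩ := e
      have h3 : u i = u i' := by linarith [ht.1.1, ht'.1.1]
      rw [hu h3]
  have c3 : E3.card ≤ (Cs w u).card := by
    apply card_le_card_of_injOn (fun t => (t.2.2, t.1))
    · intro t ht
      simp only [hE3, coe_filter, Set.mem_ofPred_eq] at ht
      simp only [Cs, coe_filter, mem_univ, true_and, Set.mem_ofPred_eq]
      exact ht.2
    · rintro ⟨i, j, k⟩ ht ⟨i', j', k'⟩ ht' e
      simp only [hE3, hoff, HH, coe_filter, mem_filter, mem_univ, true_and, Set.mem_ofPred_eq]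
        at ht ht'
      simp only [Prod.mk.injEq] at e
      obtain ⟨rfl, rfl⟩ := e
      have h3 : v j = v j' := by linarith [ht.1.1, ht'.1.1]
      rw [hv h3]
  have cT : (TT u v w).card ≤ T'.card := by
    apply card_le_card_of_injOn (fun t => (t.2.1, t.1, t.2.2))
    · rintro ⟨i, j, k⟩ ht
      have ht' := TT_facts hs ht
      simp only [hT', hoff, HH, coe_filter, mem_filter, mem_univ, true_and, Set.mem_ofPred_eq]
      refine ⟨⟨by linarith [ht'.1], ?_⟩, ht⟩
      rintro rfl
      exact lt_irrefl _ ht'.2.1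
    · rintro ⟨i, j, k⟩ _ ⟨i', j', k'⟩ _ e
      simp only [Prod.mk.injEq] at e ⊢
      exact ⟨e.2.1, e.1, e.2.2⟩
  -- pointwise
  have key : off.card + 2 * T'.card ≤ E1.card + E2.card + E3.card := by
    have f0 : off.card = ∑ _t ∈ off, 1 := card_eq_sum_ones off
    have f1 : E1.card = ∑ t ∈ off, if (u t.1 < u t.2.1 ∧ v t.1 < v t.2.1) ∨
      (u t.2.1 < u t.1 ∧ v t.2.1 < v t.1) then 1 else 0 := card_filter _ _
    have f2 : E2.card = ∑ t ∈ off, if (v t.2.1 < v t.2.2 ∧ w t.2.1 < w t.2.2) ∨
      (v t.2.2 < v t.2.1 ∧ w t.2.2 < w t.2.1) then 1 else 0 := card_filter _ _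
    have f3 : E3.card = ∑ t ∈ off, if (w t.2.2 < w t.1 ∧ u t.2.2 < u t.1) ∨
      (w t.1 < w t.2.2 ∧ u t.1 < u t.2.2) then 1 else 0 := card_filter _ _
    have f4 : T'.card = ∑ t ∈ off, if (t.2.1, t.1, t.2.2) ∈ TT u v w then 1 else 0 :=
      card_filter _ _
    rw [f0, f1, f2, f3, f4, mul_sum, ← sum_add_distrib, ← sum_add_distrib, ← sum_add_distrib]
    apply sum_le_sum
    rintro ⟨i, j, k⟩ ht
    simp only [hoff, HH, mem_filter, mem_univ, true_and] at ht
    obtain ⟨h0, hij⟩ := ht
    simp only at h0 hij ⊢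
    have si := hs i
    have sj := hs j
    have sk := hs k
    have hjk : j ≠ k := by
      rintro rfl
      exact hij (hu (by linarith))
    have hki : k ≠ i := by
      rintro rfl
      exact hij (hv (by linarith))
    have a1 : v i ≠ v j := fun h => hij (hv h)
    have a2 : u i ≠ u j := fun h => hij (hu h)
    have a3 : u k ≠ u i := fun h => hki (hu h)
    rcases lt_or_gt_of_ne a1 with b1 | b1 <;> rcases lt_or_gt_of_ne a2 with b2 | b2 <;>
    rcases lt_or_gt_of_ne a3 with b3 | b3
    all_goals
      first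
      | (have d1 : w i < w k := by linarith)
      | (have d1 : w k < w i := by linarith)
      first
      | (have d2 : w j < w k := by linarith)
      | (have d2 : w k < w j := by linarith)
      first
      | (have d3 : v j < v k := by linarith)
      | (have d3 : v k < v j := by linarith)
      simp only [b1, b2, b3, d1, d2, d3, not_lt.2 b1.le, not_lt.2 b2.le, not_lt.2 b3.le,
        not_lt.2 d1.le, not_lt.2 d2.le, not_lt.2 d3.le, mem_TT, and_true, true_and, and_false,
        false_and, or_true, true_or, or_false, if_true, if_false]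
      first
      | omega
      | (split_ifs <;> omega)
  have hC := Cp_total hs hu hv hw
  have g1 := Cs_card u v
  have g2 := Cs_card v w
  have g3 := Cs_card w u
  have hn : Fintype.card ι + Fintype.card ι * (Fintype.card ι - 1) = Fintype.card ι ^ 2 := by
    rcases Fintype.card ι with _ | n
    · rfl
    · simp only [Nat.add_sub_cancel]; ring
  omega

end Index

/-- the number of concurrent triples: a vertical line through `p`, a horizontal line through `q`
and a line of slope 1 through `r` with a common point -/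
noncomputable def conc (P : Finset (ℝ × ℝ)) : ℕ :=
  ((P ×ˢ P ×ˢ P).filter fun t => t.1.1 - t.2.1.2 = t.2.2.1 - t.2.2.2).card

lemma conc_le (P : Finset (ℝ × ℝ)) : conc P ≤ (HH (cu P) (cv P) (cw P)).card := by
  refine le_trans (card_le_card (t := (HH (cu P) (cv P) (cw P)).image
    (fun t => ((t.1 : ℝ × ℝ), (t.2.1 : ℝ × ℝ), (t.2.2 : ℝ × ℝ)))) ?_) card_image_le
  rintro ⟨i, j, k⟩ ht
  simp only [mem_filter, mem_product] at ht
  obtain ⟨⟨hi, hj, hk⟩, e1⟩ := ht
  refine mem_image.2 ⟨(⟨i, hi⟩, ⟨j, hj⟩, ⟨k, hk⟩), ?_, rfl⟩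
  simp only [HH, mem_filter, mem_univ, true_and, cu, cv, cw]
  linarith

/-- many concurrences force many ordinary lines -/
theorem conc_bound (P : Finset (ℝ × ℝ)) : ((3 * conc P : ℕ) : ℕ∞) ≤
    2 * numOrd (P : Set (ℝ × ℝ)) + ((2 * P.card ^ 2 + P.card : ℕ) : ℕ∞) := by
  by_cases h : GP P
  · obtain ⟨N, hN, h1⟩ := numOrd_GP' h
    have h2 := HH_TT (csum P) (cu_inj h) (cv_inj h) (cw_inj h)
    rw [Fintype.card_coe] at h2
    have h3 := conc_le P
    have h4 : P.card + P.card * (P.card - 1) = P.card ^ 2 := by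
      rcases P.card with _ | n
      · rfl
      · simp only [Nat.add_sub_cancel]; ring
    rw [hN]
    have h5 : 3 * conc P ≤ 2 * N + (2 * P.card ^ 2 + P.card) := by omega
    exact_mod_cast h5
  · rw [numOrd_not_GP h]
    simp

end Pool.Agent.W_MP_e1f0eb_co
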