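import Pool.Agent.W_MP_e1f0eb_co.Conc

open Finset Classical

namespace Pool.Agent.W_MP_e1f0eb_co

/-- the arithmetic progression `a, a + h, …, a + (n - 1) h` -/
noncomputable def AP (a h : ℝ) (n : ℕ) : Finset ℝ := (range n).image fun i : ℕ => a + i * h

/-- `P` has `n` points; the first coordinates, the second coordinates and the differences
`x - y` of its points each form an arithmetic progression with `n` terms and difference `h` -/
def FillsAP (n : ℕ) (h : ℝ) (P : Finset (ℝ × ℝ)) : Prop :=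
  P.card = n ∧ (∃ a, P.image (fun p => p.1) = AP a h n) ∧ (∃ b, P.image (fun p => p.2) = AP b h n) ∧
    ∃ c, P.image (fun p => p.1 - p.2) = AP c h n

lemma AP_inj {a h : ℝ} (hh : 0 < h) : Function.Injective fun i : ℕ => a + i * h := by
  intro i j e
  simp only at e
  have e1 : ((i : ℝ) - j) * h = 0 := by linarith
  rcases mul_eq_zero.1 e1 with h1 | h1
  · exact_mod_cast sub_eq_zero.1 h1
  · exact absurd h1 hh.ne'

lemma AP_card {a h : ℝ} (hh : 0 < h) (n : ℕ) : (AP a h n).card = n := by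
  unfold AP
  rw [card_image_of_injective _ (AP_inj hh), card_range]

lemma AP_sum {a h : ℝ} (hh : 0 < h) (n : ℕ) :
    ∑ x ∈ AP a h n, x = n * a + h * ((n : ℝ) * (n - 1) / 2) := by
  unfold AP
  rw [sum_image (fun i _ j _ e => AP_inj hh e), sum_add_distrib, sum_const, card_range,
    nsmul_eq_mul, ← sum_mul]
  have h1 : ∑ i ∈ range n, (i : ℝ) = (n : ℝ) * (n - 1) / 2 := by
    induction n with
    | zero => simp
    | succ n ih => rw [sum_range_succ, ih]; push_cast; ring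
  rw [h1]; ring

lemma sum_of_image {P : Finset (ℝ × ℝ)} {g : ℝ × ℝ → ℝ} {a h : ℝ} (hh : 0 < h) {n : ℕ}
    (hn : P.card = n) (hg : P.image g = AP a h n) :
    ∑ p ∈ P, g p = n * a + h * ((n : ℝ) * (n - 1) / 2) := by
  have hinj : Set.InjOn g P := by
    apply card_image_iff.1
    rw [hg, AP_card hh, hn]
  rw [← AP_sum hh, ← hg, sum_image hinj]

/-- sets filling progressions have the maximal number of concurrences -/
theorem conc_AP {n : ℕ} {h : ℝ} (hh : 0 < h) {P : Finset (ℝ × ℝ)} (hP : FillsAP n h P)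
    (hn : 1 ≤ n) : ∃ m : ℕ, n = 2 * m + 1 ∧ 3 * m ^ 2 + 3 * m + 1 ≤ conc P := by
  obtain ⟨h1, ⟨a, ha⟩, ⟨b, hb⟩, ⟨c, hc⟩⟩ := hP
  -- the position of the differences
  have s1 := sum_of_image hh h1 ha
  have s2 := sum_of_image hh h1 hb
  have s3 := sum_of_image hh h1 hc
  rw [sum_sub_distrib, s1, s2] at s3
  have hn0 : (0 : ℝ) < n := by exact_mod_cast hn
  have hpos : a - b = c + h * (((n : ℝ) - 1) / 2) := by
    have : (n : ℝ) * (a - b) = n * (c + h * (((n : ℝ) - 1) / 2)) := by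
      have e : h * ((n : ℝ) * (n - 1) / 2) = n * (h * (((n : ℝ) - 1) / 2)) := by ring
      rw [e] at s3
      linarith
    exact mul_left_cancel₀ hn0.ne' this
  -- `n` is odd
  obtain ⟨p, hp⟩ : P.Nonempty := by
    rw [← card_pos]; omega
  obtain ⟨i, hi, ei⟩ := mem_image.1 (show p.1 ∈ AP a h n by rw [← ha]; exact mem_image_of_mem _ hp)
  obtain ⟨j, hj, ej⟩ := mem_image.1 (show p.2 ∈ AP b h n by
    rw [← hb]; exact mem_image_of_mem (fun p : ℝ × ℝ => p.2) hp)
  obtain ⟨k, hk, ek⟩ := mem_image.1 (show p.1 - p.2 ∈ AP c h n by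
    rw [← hc]; exact mem_image_of_mem (fun p : ℝ × ℝ => p.1 - p.2) hp)
  have hodd : (n : ℝ) - 1 = 2 * (k - i + j) := by
    have e1 : h * (((n : ℝ) - 1) / 2) = h * (k - i + j) := by
      have : a + i * h - (b + j * h) = c + k * h := by rw [ei, ej, ek]
      linarith
    have := mul_left_cancel₀ hh.ne' e1
    linarith
  have hodd' : (n : ℤ) - 1 = 2 * (k - i + j) := by exact_mod_cast hodd
  obtain ⟨m, hm⟩ : ∃ m : ℕ, n = 2 * m + 1 := ⟨((k : ℤ) - i + j).toNat, by omega⟩
  refine ⟨m, hm, (near_card m).trans ?_⟩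
  -- points with given coordinates
  have fx : ∀ i : ℕ, ∃ p : ℝ × ℝ, i < n → p ∈ P ∧ p.1 = a + i * h := by
    intro i
    by_cases hi : i < n
    · obtain ⟨p, hp, e⟩ := mem_image.1 (show a + i * h ∈ P.image (fun p => p.1) by
        rw [ha]; exact mem_image.2 ⟨i, mem_range.2 hi, rfl⟩)
      exact ⟨p, fun _ => ⟨hp, e⟩⟩
    · exact ⟨0, fun h => absurd h hi⟩
  have fy : ∀ i : ℕ, ∃ p : ℝ × ℝ, i < n → p ∈ P ∧ p.2 = b + i * h := by
    intro i
    by_cases hi : i < n
    · obtain ⟨p, hp, e⟩ := mem_image.1 (show b + i * h ∈ P.image (fun p => p.2) by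
        rw [hb]; exact mem_image.2 ⟨i, mem_range.2 hi, rfl⟩)
      exact ⟨p, fun _ => ⟨hp, e⟩⟩
    · exact ⟨0, fun h => absurd h hi⟩
  have fd : ∀ i : ℕ, ∃ p : ℝ × ℝ, i < n → p ∈ P ∧ p.1 - p.2 = c + i * h := by
    intro i
    by_cases hi : i < n
    · obtain ⟨p, hp, e⟩ := mem_image.1 (show c + i * h ∈ P.image (fun p => p.1 - p.2) by
        rw [hc]; exact mem_image.2 ⟨i, mem_range.2 hi, rfl⟩)
      exact ⟨p, fun _ => ⟨hp, e⟩⟩
    · exact ⟨0, fun h => absurd h hi⟩
  choose px hpx using fx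
  choose py hpy using fy
  choose pd hpd using fd
  unfold conc
  apply card_le_card_of_injOn (fun q : ℤ × ℤ =>
    (px (q.1 - 1).toNat, py (q.2 - 1).toNat, pd (q.1 - q.2 + m).toNat))
  · rintro ⟨x, y⟩ hq
    simp only [near, coe_filter, mem_product, mem_Icc, Set.mem_ofPred_eq] at hq
    obtain ⟨⟨⟨x1, x2⟩, y1, y2⟩, d1, d2⟩ := hq
    have r1 := hpx (x - 1).toNat (by omega)
    have r2 := hpy (y - 1).toNat (by omega)
    have r3 := hpd (x - y + m).toNat (by omega)
    simp only [coe_filter, mem_product, Set.mem_ofPred_eq]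
    refine ⟨⟨r1.1, r2.1, r3.1⟩, ?_⟩
    rw [r1.2, r2.2, r3.2]
    have c1 : (((x - 1).toNat : ℕ) : ℝ) = (x : ℝ) - 1 := by
      have : (((x - 1).toNat : ℕ) : ℤ) = x - 1 := Int.toNat_of_nonneg (by omega)
      exact_mod_cast congrArg (fun z : ℤ => (z : ℝ)) this
    have c2 : (((y - 1).toNat : ℕ) : ℝ) = (y : ℝ) - 1 := by
      have : (((y - 1).toNat : ℕ) : ℤ) = y - 1 := Int.toNat_of_nonneg (by omega)
      exact_mod_cast congrArg (fun z : ℤ => (z : ℝ)) this
    have c3 : (((x - y + m).toNat : ℕ) : ℝ) = (x : ℝ) - y + m := by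
      have : (((x - y + m).toNat : ℕ) : ℤ) = x - y + m := Int.toNat_of_nonneg (by omega)
      exact_mod_cast congrArg (fun z : ℤ => (z : ℝ)) this
    rw [c1, c2, c3]
    have hm' : ((n : ℝ) - 1) / 2 = m := by rw [hm]; push_cast; ring
    rw [hm'] at hpos
    linarith
  · rintro ⟨x, y⟩ hq ⟨x', y'⟩ hq' e
    simp only [near, coe_filter, mem_product, mem_Icc, Set.mem_ofPred_eq] at hq hq'
    obtain ⟨⟨⟨x1, x2⟩, y1, y2⟩, d1, d2⟩ := hq
    obtain ⟨⟨⟨x1', x2'⟩, y1', y2'⟩, d1', d2'⟩ := hq'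
    simp only [Prod.mk.injEq] at e
    have r1 := (hpx (x - 1).toNat (by omega)).2
    have r1' := (hpx (x' - 1).toNat (by omega)).2
    have r2 := (hpy (y - 1).toNat (by omega)).2
    have r2' := (hpy (y' - 1).toNat (by omega)).2
    rw [e.1, r1'] at r1
    rw [e.2.1, r2'] at r2
    have q1 : (x' - 1).toNat = (x - 1).toNat := AP_inj (a := a) hh r1
    have q2 : (y' - 1).toNat = (y - 1).toNat := AP_inj (a := b) hh r2
    rw [Prod.mk.injEq]
    omega

/-- the sharp lower bound for sets filling progressions -/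
theorem AP_lower {n : ℕ} {h : ℝ} (hh : 0 < h) {P : Finset (ℝ × ℝ)} (hP : FillsAP n h P) :
    (((n - 1) * (n - 3) : ℕ) : ℕ∞) ≤ 8 * numOrd (P : Set (ℝ × ℝ)) := by
  rcases Nat.eq_zero_or_pos n with rfl | hn
  · simp
  obtain ⟨m, hm, h1⟩ := conc_AP hh hP hn
  have h2 := conc_bound P
  rw [hP.1] at h2
  rcases eq_or_ne (numOrd (P : Set (ℝ × ℝ))) ⊤ with h3 | h3
  · rw [h3]
    exact le_of_le_of_eq le_top (by rfl)
  · obtain ⟨N, hN⟩ := ENat.ne_top_iff_exists.1 h3
    rw [← hN] at h2 ⊢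
    have h4 : 3 * conc P ≤ 2 * N + (2 * n ^ 2 + n) := by exact_mod_cast h2
    have h5 : (n - 1) * (n - 3) ≤ 8 * N := by
      subst hm
      rcases m with _ | m
      · simp
      · have e1 : 2 * (m + 1) + 1 - 1 = 2 * m + 2 := by omega
        have e2 : 2 * (m + 1) + 1 - 3 = 2 * m := by omega
        rw [e1, e2]
        nlinarith
    exact_mod_cast h5

/-- the sets of the recursive construction fill progressions -/
lemma Pf_fills {m : ℕ} {f : ℤ → ℤ} (h : Good (m : ℤ) f) : FillsAP (2 * m + 1) 1 (Pf m f) := by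
  have key : ∀ (g : ℤ → ℤ) (s : ℤ), (Icc (1:ℤ) (2 * m + 1)).image g = Icc s (s + 2 * m) →
      (Icc (1:ℤ) (2 * m + 1)).image (fun x => ((g x : ℤ) : ℝ)) = AP (s : ℝ) 1 (2 * m + 1) := by
    intro g s hg
    have e1 : (Icc (1:ℤ) (2 * m + 1)).image (fun x => ((g x : ℤ) : ℝ)) =
        ((Icc (1:ℤ) (2 * m + 1)).image g).image (fun z : ℤ => (z : ℝ)) := by
      rw [image_image]
      rfl
    rw [e1, hg]
    ext z
    unfold AP
    simp only [mem_image, mem_Icc, mem_range]
    constructor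
    · rintro ⟨x, hx, rfl⟩
      refine ⟨(x - s).toNat, by omega, ?_⟩
      have : (((x - s).toNat : ℕ) : ℤ) = x - s := Int.toNat_of_nonneg (by omega)
      have c1 : (((x - s).toNat : ℕ) : ℝ) = (x : ℝ) - s := by
        exact_mod_cast congrArg (fun z : ℤ => (z : ℝ)) this
      rw [c1]; ring
    · rintro ⟨i, hi, rfl⟩
      refine ⟨s + i, by omega, ?_⟩
      push_cast; ring
  refine ⟨Pf_card f, ⟨1, ?_⟩, ⟨1, ?_⟩, ⟨-(m : ℝ), ?_⟩⟩
  · unfold Pf
    rw [image_image]
    have := key (fun x => x) 1 (by rw [image_id']; congr 1; ring)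
    rw [Int.cast_one] at this
    exact this
  · unfold Pf
    rw [image_image]
    have := key f 1 (by rw [h.surj]; congr 1; ring)
    rw [Int.cast_one] at this
    exact this
  · unfold Pf
    rw [image_image]
    have := key (fun x => x - f x) (-(m : ℤ)) (by
      have h1 := h.dsurj
      have h2 : (Icc (1:ℤ) (2 * m + 1)).image (fun x => x - f x) =
          ((Icc (1:ℤ) (2 * m + 1)).image (fun x => f x - x)).image (fun z => -z) := by
        rw [image_image]
        congr 1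
        funext x
        simp
      rw [h2, h1]
      ext z
      simp only [mem_image, mem_Icc]
      constructor
      · rintro ⟨x, hx, rfl⟩; omega
      · intro hz; exact ⟨-z, by omega, by ring⟩)
    push_cast at this
    exact this

/-- the extremal sets for powers of three -/
theorem AP_exact (j : ℕ) : ∃ P : Finset (ℝ × ℝ), FillsAP (3 ^ j) 1 P ∧
    8 * numOrd (P : Set (ℝ × ℝ)) = (((3 ^ j - 1) * (3 ^ j - 3) : ℕ) : ℕ∞) := by
  obtain ⟨m', f, h1, h2, h3⟩ := exists_good j 0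
  simp only [mul_zero, zero_add, mul_one, one_pow] at h1 h3
  have hF := Pf_fills h2
  rw [h1] at hF
  refine ⟨Pf m' f, hF, le_antisymm ?_ (AP_lower one_pos hF)⟩
  obtain ⟨N, h4, h5⟩ := numOrd_TP (Pf_GP h2)
  have h6 := Tf_le_TP m' f
  rw [h4]
  rw [hF.1] at h5
  have h7 : (9:ℕ) ^ j = 3 ^ j * 3 ^ j := by rw [← mul_pow]; norm_num
  rw [h7] at h3
  have hpos : 0 < 3 ^ j := by positivity
  obtain ⟨t, ht⟩ : ∃ t, 3 ^ j = t + 1 := ⟨3 ^ j - 1, by omega⟩
  rw [ht] at h3 h5 ⊢
  have h8 : 8 * N ≤ (t + 1 - 1) * (t + 1 - 3) := by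
    rw [Nat.add_sub_cancel] at h5 ⊢
    rcases Nat.lt_or_ge t 2 with h | h
    · interval_cases t
      · omega
      · omega
    · obtain ⟨u, rfl⟩ := Nat.exists_eq_add_of_le h
      have e2 : 2 + u + 1 - 3 = u := by omega
      rw [e2]
      nlinarith
  exact_mod_cast h8

end Pool.Agent.W_MP_e1f0eb_co
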