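import Mathlib

namespace Pool.Agent.W_MP_e1f0eb_co

/-- The tropical line with center `c = (a,b)` (max convention): the union of the three closed rays
from `c` in the directions `(-1,0)`, `(0,-1)` and `(1,1)`. -/
def tropLine (c : ℝ × ℝ) : Set (ℝ × ℝ) :=
  {p | (p.1 ≤ c.1 ∧ p.2 = c.2) ∨ (p.1 = c.1 ∧ p.2 ≤ c.2) ∨
    (c.1 ≤ p.1 ∧ p.2 - c.2 = p.1 - c.1)}

/-- The centers of the ordinary tropical lines determined by `P`: those tropical lines that contain
exactly two points of `P`. -/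
def ordCenters (P : Set (ℝ × ℝ)) : Set (ℝ × ℝ) :=
  {c | (tropLine c ∩ P).ncard = 2}

/-- `N(P)`: the number (possibly infinite) of ordinary tropical lines determined by `P`. -/
noncomputable def numOrd (P : Set (ℝ × ℝ)) : ℕ∞ := (ordCenters P).encard

/-- `m(n)`: the minimum of `N(P)` over all `n`-point sets `P`. -/
noncomputable def mTrop (n : ℕ) : ℕ∞ :=
  ⨅ (P : Finset (ℝ × ℝ)) (_ : P.card = n), numOrd (P : Set (ℝ × ℝ))

end Pool.Agent.W_MP_e1f0eb_co
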