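import Pool.Agent.W_MP_e1f0eb_co.Geo

open Finset Classical

namespace Pool.Agent.W_MP_e1f0eb_co

/-- two points on a vertical line give infinitely many ordinary tropical lines -/
lemma inf_x (P : Finset (ℝ × ℝ)) {a b : ℝ × ℝ} (ha : a ∈ P) (hb : b ∈ P) (hab : a ≠ b)
    (h : a.1 = b.1) : (ordCenters (P : Set (ℝ × ℝ))).Infinite := by
  set x₀ := a.1 with hx₀
  set Y := (P.filter fun p => p.1 = x₀).image (fun p => p.2) with hY
  have memY : ∀ y, y ∈ Y ↔ (x₀, y) ∈ P := by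
    intro y
    rw [hY, mem_image]
    constructor
    · rintro ⟨p, hp, rfl⟩
      rw [mem_filter] at hp
      rw [← hp.2]; exact hp.1
    · intro hp; exact ⟨(x₀, y), mem_filter.2 ⟨hp, rfl⟩, rfl⟩
  have ha' : a.2 ∈ Y := (memY _).2 ha
  have hb' : b.2 ∈ Y := (memY _).2 (by rw [h]; exact hb)
  have hne : a.2 ≠ b.2 := fun e => hab (Prod.ext h e)
  have hY0 : Y.Nonempty := ⟨_, ha'⟩
  set y₁ := Y.min' hY0 with hy₁
  have hy₁m : y₁ ∈ Y := min'_mem _ _
  have hY1 : (Y.erase y₁).Nonempty := by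
    rw [← card_pos, card_erase_of_mem hy₁m]
    have : 1 < Y.card := one_lt_card.2 ⟨_, ha', _, hb', hne⟩
    omega
  set y₂ := (Y.erase y₁).min' hY1 with hy₂
  have hy₂m : y₂ ∈ Y.erase y₁ := min'_mem _ _
  obtain ⟨y₃, hy₂₃, hy₃⟩ : ∃ y₃, y₂ < y₃ ∧ ∀ y ∈ Y, y ≠ y₁ → y ≠ y₂ → y₃ ≤ y := by
    by_cases hY2 : ((Y.erase y₁).erase y₂).Nonempty
    · refine ⟨((Y.erase y₁).erase y₂).min' hY2, ?_, ?_⟩
      · have hm := min'_mem _ hY2
        rw [mem_erase] at hm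
        exact lt_of_le_of_ne (min'_le _ _ hm.2) (Ne.symm hm.1)
      · intro y hy h1 h2
        exact min'_le _ _ (mem_erase.2 ⟨h2, mem_erase.2 ⟨h1, hy⟩⟩)
    · refine ⟨y₂ + 1, by linarith, ?_⟩
      intro y hy h1 h2
      exact absurd ⟨y, mem_erase.2 ⟨h2, mem_erase.2 ⟨h1, hy⟩⟩⟩ hY2
  have hy₁₂ : y₁ < y₂ :=
    lt_of_le_of_ne (min'_le _ _ (mem_erase.1 hy₂m).2) (Ne.symm (mem_erase.1 hy₂m).1)
  set Bd : Finset ℝ := P.image (fun p => p.2) ∪ P.image (fun p => p.2 - p.1 + x₀) with hBd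
  have hinf : (Set.Ioo y₂ y₃ \ (Bd : Set ℝ)).Infinite :=
    (Set.Ioo_infinite hy₂₃).sdiff (finite_toSet Bd)
  have hmap : ∀ y ∈ Set.Ioo y₂ y₃ \ (Bd : Set ℝ), (x₀, y) ∈ ordCenters (P : Set (ℝ × ℝ)) := by
    rintro y ⟨⟨hy1, hy2⟩, hyB⟩
    have hyB' : y ∉ Bd := hyB
    rw [hBd, mem_union, not_or] at hyB'
    have : tropLine (x₀, y) ∩ (P : Set (ℝ × ℝ)) = {(x₀, y₁), (x₀, y₂)} := by
      ext p
      simp only [Set.mem_inter_iff, mem_tropLine, mem_coe, Set.mem_insert_iff,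
        Set.mem_singleton_iff]
      constructor
      · rintro ⟨h1 | h1 | h1, hp⟩
        · exact absurd (mem_image.2 ⟨p, hp, h1.2⟩) hyB'.1
        · have hpY : p.2 ∈ Y := (memY _).2 (by rw [← h1.1]; exact hp)
          by_cases e1 : p.2 = y₁
          · left; exact Prod.ext h1.1 e1
          by_cases e2 : p.2 = y₂
          · right; exact Prod.ext h1.1 e2
          · have := hy₃ _ hpY e1 e2
            linarith [h1.2]
        · exact absurd (mem_image.2 ⟨p, hp, by linarith [h1.2]⟩) hyB'.2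
      · rintro (rfl | rfl)
        · exact ⟨Or.inr (Or.inl ⟨rfl, by simp only; linarith⟩), (memY _).1 hy₁m⟩
        · exact ⟨Or.inr (Or.inl ⟨rfl, by simp only; linarith⟩),
            (memY _).1 (mem_erase.1 hy₂m).2⟩
    show (tropLine (x₀, y) ∩ (P : Set (ℝ × ℝ))).ncard = 2
    rw [this]
    apply Set.ncard_pair
    intro e
    have := congrArg Prod.snd e
    simp only at this
    linarith
  have hinj : Function.Injective (fun y : ℝ => ((x₀, y) : ℝ × ℝ)) := by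
    intro y y' e
    exact congrArg Prod.snd e
  exact (hinf.image hinj.injOn).mono (by rintro _ ⟨y, hy, rfl⟩; exact hmap y hy)

/-- the order three symmetry of the tropical plane -/
def sg : (ℝ × ℝ) ≃ (ℝ × ℝ) where
  toFun p := (-p.2, p.1 - p.2)
  invFun q := (q.2 - q.1, -q.1)
  left_inv p := by ext <;> simp
  right_inv q := by ext <;> simp

lemma sg_mem (p c : ℝ × ℝ) : sg p ∈ tropLine (sg c) ↔ p ∈ tropLine c := by
  obtain ⟨p1, p2⟩ := p
  obtain ⟨c1, c2⟩ := c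
  simp only [mem_tropLine, sg, Equiv.coe_fn_mk]
  constructor
  · rintro (⟨h1, h2⟩ | ⟨h1, h2⟩ | ⟨h1, h2⟩)
    · right; right; exact ⟨by linarith, by linarith⟩
    · left; exact ⟨by linarith, by linarith⟩
    · right; left; exact ⟨by linarith, by linarith⟩
  · rintro (⟨h1, h2⟩ | ⟨h1, h2⟩ | ⟨h1, h2⟩)
    · right; left; exact ⟨by linarith, by linarith⟩
    · right; right; exact ⟨by linarith, by linarith⟩
    · left; exact ⟨by linarith, by linarith⟩

lemma sg_inter (P : Finset (ℝ × ℝ)) (c : ℝ × ℝ) :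
    tropLine (sg c) ∩ ((P.image sg : Finset (ℝ × ℝ)) : Set (ℝ × ℝ)) =
      sg '' (tropLine c ∩ (P : Set (ℝ × ℝ))) := by
  ext q
  constructor
  · rintro ⟨h1, h2⟩
    rw [mem_coe, mem_image] at h2
    obtain ⟨p, hp, rfl⟩ := h2
    exact ⟨p, ⟨(sg_mem p c).1 h1, hp⟩, rfl⟩
  · rintro ⟨p, ⟨h1, h2⟩, rfl⟩
    exact ⟨(sg_mem p c).2 h1, by rw [mem_coe]; exact mem_image_of_mem _ h2⟩

lemma sg_ord (P : Finset (ℝ × ℝ)) (c : ℝ × ℝ) :
    sg c ∈ ordCenters ((P.image sg : Finset (ℝ × ℝ)) : Set (ℝ × ℝ)) ↔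
      c ∈ ordCenters (P : Set (ℝ × ℝ)) := by
  simp only [ordCenters, Set.mem_ofPred_eq]
  rw [sg_inter, Set.ncard_image_of_injective _ sg.injective]

lemma sg_inf (P : Finset (ℝ × ℝ))
    (h : (ordCenters ((P.image sg : Finset (ℝ × ℝ)) : Set (ℝ × ℝ))).Infinite) :
    (ordCenters (P : Set (ℝ × ℝ))).Infinite := by
  have : sg.symm '' (ordCenters ((P.image sg : Finset (ℝ × ℝ)) : Set (ℝ × ℝ))) ⊆
      ordCenters (P : Set (ℝ × ℝ)) := by
    rintro _ ⟨c, hc, rfl⟩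
    rw [← sg_ord, Equiv.apply_symm_apply]
    exact hc
  exact (h.image sg.symm.injective.injOn).mono this

lemma inf_y (P : Finset (ℝ × ℝ)) {a b : ℝ × ℝ} (ha : a ∈ P) (hb : b ∈ P) (hab : a ≠ b)
    (h : a.2 = b.2) : (ordCenters (P : Set (ℝ × ℝ))).Infinite := by
  apply sg_inf
  apply inf_x _ (mem_image_of_mem sg ha) (mem_image_of_mem sg hb)
    (fun e => hab (sg.injective e))
  simp [sg, h]

lemma inf_z (P : Finset (ℝ × ℝ)) {a b : ℝ × ℝ} (ha : a ∈ P) (hb : b ∈ P) (hab : a ≠ b)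
    (h : a.2 - a.1 = b.2 - b.1) : (ordCenters (P : Set (ℝ × ℝ))).Infinite := by
  apply sg_inf
  apply inf_y _ (mem_image_of_mem sg ha) (mem_image_of_mem sg hb)
    (fun e => hab (sg.injective e))
  simp only [sg, Equiv.coe_fn_mk]
  linarith

/-- outside general position the number of ordinary tropical lines is infinite -/
theorem numOrd_not_GP {P : Finset (ℝ × ℝ)} (h : ¬ GP P) : numOrd (P : Set (ℝ × ℝ)) = ⊤ := by
  unfold numOrd
  rw [Set.encard_eq_top_iff]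
  unfold GP at h
  rw [not_and_or, not_and_or] at h
  push Not at h
  rcases h with ⟨a, ha, b, hb, h1, h2⟩ | ⟨a, ha, b, hb, h1, h2⟩ | ⟨a, ha, b, hb, h1, h2⟩
  · exact inf_x P ha hb h2 h1
  · exact inf_y P ha hb h2 h1
  · exact inf_z P ha hb h2 h1

/-- the quadratic lower bound -/
theorem lower_bound (P : Finset (ℝ × ℝ)) (hP : 140 ≤ P.card) :
    ((((P.card) ^ 2 + 999) / 1000 : ℕ) : ℕ∞) ≤ numOrd (P : Set (ℝ × ℝ)) := by
  by_cases h : GP P
  · rw [numOrd_GP h]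
    have h1 := NO_lower (csum P) (cu_inj h) (cv_inj h) (cw_inj h)
      (by rw [Fintype.card_coe]; exact hP)
    rw [Fintype.card_coe] at h1
    have : (P.card ^ 2 + 999) / 1000 ≤ NO (cu P) (cv P) (cw P) := by omega
    exact_mod_cast this
  · rw [numOrd_not_GP h]
    exact le_top

theorem mTrop_lower (n : ℕ) (hn : 140 ≤ n) : (n : ℕ∞) ^ 2 ≤ 1000 * mTrop n := by
  have h1 : (((n ^ 2 + 999) / 1000 : ℕ) : ℕ∞) ≤ mTrop n := by
    unfold mTrop
    refine le_iInf fun P => le_iInf fun hP => ?_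
    subst hP
    exact lower_bound P hn
  calc (n : ℕ∞) ^ 2 ≤ ((1000 * ((n ^ 2 + 999) / 1000) : ℕ) : ℕ∞) := by
        have : n ^ 2 ≤ 1000 * ((n ^ 2 + 999) / 1000) := by omega
        exact_mod_cast this
    _ = 1000 * (((n ^ 2 + 999) / 1000 : ℕ) : ℕ∞) := by push_cast; rfl
    _ ≤ 1000 * mTrop n := by gcongr

end Pool.Agent.W_MP_e1f0eb_co
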