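import Mathlib

open Finset Classical

namespace Pool.Agent.W_MP_e1f0eb_co

/-- number of zero-sum triples -/
noncomputable def Z3 (X Y Z : Finset ℝ) : ℕ :=
  ((X ×ˢ Y ×ˢ Z).filter fun q => q.1 + q.2.1 + q.2.2 = 0).card

lemma Z3_rot (X Y Z : Finset ℝ) : Z3 X Y Z = Z3 Y Z X := by
  unfold Z3
  refine card_bij' (fun q _ => (q.2.1, q.2.2, q.1)) (fun q _ => (q.2.2, q.1, q.2.1)) ?_ ?_
    (fun q _ => rfl) (fun q _ => rfl)
  · intro q hq
    simp only [mem_filter, mem_product] at hq ⊢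
    exact ⟨⟨hq.1.2.1, hq.1.2.2, hq.1.1⟩, by linarith [hq.2]⟩
  · intro q hq
    simp only [mem_filter, mem_product] at hq ⊢
    exact ⟨⟨hq.1.2.2, hq.1.1, hq.1.2.1⟩, by linarith [hq.2]⟩

lemma Z3_empty (X Y : Finset ℝ) : Z3 X Y ∅ = 0 := by simp [Z3]

lemma Z3_lost (X Y Z : Finset ℝ) (hX : X.Nonempty) (hY : Y.Nonempty) :
    Z3 X Y Z ≤ Z3 (X.erase (X.min' hX)) (Y.erase (Y.max' hY)) Z + Z.card := by
  set x₀ := X.min' hX with hx₀
  set y₀ := Y.max' hY with hy₀
  have hxm : ∀ x ∈ X, x₀ ≤ x := fun x hx => min'_le _ _ hx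
  have hym : ∀ y ∈ Y, y ≤ y₀ := fun y hy => le_max' _ _ hy
  unfold Z3
  set F := (X ×ˢ Y ×ˢ Z).filter fun q : ℝ × ℝ × ℝ => q.1 + q.2.1 + q.2.2 = 0 with hF
  rw [← card_filter_add_card_filter_not (s := F) (fun q => q.1 ≠ x₀ ∧ q.2.1 ≠ y₀)]
  apply Nat.add_le_add
  · apply card_le_card
    intro q hq
    simp only [hF, mem_filter, mem_product, mem_erase] at hq ⊢
    exact ⟨⟨⟨hq.2.1, hq.1.1.1⟩, ⟨hq.2.2, hq.1.1.2.1⟩, hq.1.1.2.2⟩, hq.1.2⟩
  · apply card_le_card_of_injOn (fun q => q.2.2)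
    · intro q hq
      simp only [hF, mem_filter, mem_product, coe_filter, Set.mem_ofPred_eq] at hq ⊢
      exact hq.1.1.2.2
    · intro q hq q' hq' h
      simp only [hF, mem_filter, mem_product, coe_filter, Set.mem_ofPred_eq] at hq hq'
      simp only at h
      have a1 := hxm _ hq.1.1.1
      have a2 := hym _ hq.1.1.2.1
      have b1 := hxm _ hq'.1.1.1
      have b2 := hym _ hq'.1.1.2.1
      have e1 := hq.1.2
      have e2 := hq'.1.2
      have hh : q.1 = q'.1 ∧ q.2.1 = q'.2.1 := by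
        have c1 : q.1 = x₀ ∨ q.2.1 = y₀ := by
          by_contra hcon; push Not at hcon; exact hq.2 hcon
        have c2 : q'.1 = x₀ ∨ q'.2.1 = y₀ := by
          by_contra hcon; push Not at hcon; exact hq'.2 hcon
        rcases c1 with c1 | c1 <;> rcases c2 with c2 | c2 <;> constructor <;> linarith
      exact Prod.ext hh.1 (Prod.ext hh.2 h)

lemma zs_bound_aux : ∀ (m : ℕ) (X Y Z : Finset ℝ), X.card + Y.card + Z.card = m →
    4 * Z3 X Y Z ≤ X.card * Y.card + Y.card * Z.card + Z.card * X.card + m := by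
  intro m
  induction m using Nat.strong_induction_on with
  | _ m ih =>
  -- main step when Z is the smallest
  have main : ∀ X Y Z : Finset ℝ, X.card + Y.card + Z.card = m → Z.card ≤ X.card →
      Z.card ≤ Y.card →
      4 * Z3 X Y Z ≤ X.card * Y.card + Y.card * Z.card + Z.card * X.card + m := by
    intro X Y Z hm hzx hzy
    by_cases hZ : Z = ∅
    · rw [hZ, Z3_empty]; omega
    have hZc : 0 < Z.card := card_pos.2 (nonempty_iff_ne_empty.2 hZ)
    have hX : X.Nonempty := card_pos.1 (by omega)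
    have hY : Y.Nonempty := card_pos.1 (by omega)
    have h1 := Z3_lost X Y Z hX hY
    have hcX : (X.erase (X.min' hX)).card = X.card - 1 := card_erase_of_mem (min'_mem _ _)
    have hcY : (Y.erase (Y.max' hY)).card = Y.card - 1 := card_erase_of_mem (max'_mem _ _)
    have h2 := ih (m - 2) (by omega) (X.erase (X.min' hX)) (Y.erase (Y.max' hY)) Z (by omega)
    rw [hcX, hcY] at h2
    obtain ⟨a, ha⟩ : ∃ a, X.card = a + 1 := ⟨X.card - 1, by omega⟩
    obtain ⟨b, hb⟩ : ∃ b, Y.card = b + 1 := ⟨Y.card - 1, by omega⟩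
    obtain ⟨c, hc⟩ : ∃ c, m = c + 2 := ⟨m - 2, by omega⟩
    rw [ha, hb, hc] at h2
    simp only [Nat.add_sub_cancel] at h2
    rw [ha, hb, hc]
    have e : (a + 1) * (b + 1) + (b + 1) * Z.card + Z.card * (a + 1) + (c + 2) =
        a * b + b * Z.card + Z.card * a + c + (a + b + 1 + 2 * Z.card + 2) := by ring
    rw [e]
    omega
  intro X Y Z hm
  by_cases h1 : Z.card ≤ X.card ∧ Z.card ≤ Y.card
  · exact main X Y Z hm h1.1 h1.2
  by_cases h2 : X.card ≤ Y.card ∧ X.card ≤ Z.card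
  · rw [Z3_rot]
    have := main Y Z X (by omega) h2.1 h2.2
    linarith
  · rw [Z3_rot, Z3_rot]
    have := main Z X Y (by omega) (by omega) (by omega)
    linarith

/-- zero-sum triples in three finite sets of reals -/
lemma zs_bound (X Y Z : Finset ℝ) :
    4 * Z3 X Y Z ≤ X.card * Y.card + Y.card * Z.card + Z.card * X.card +
      (X.card + Y.card + Z.card) := zs_bound_aux _ X Y Z rfl

end Pool.Agent.W_MP_e1f0eb_co
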