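import Pool.Agent.W_MP_e1f0eb_co.Local
import Pool.Agent.W_MP_e1f0eb_co.ZeroSum

open Finset Classical

namespace Pool.Agent.W_MP_e1f0eb_co

variable {ι : Type*} [Fintype ι]

lemma sum_rU (u v w : ι → ℝ) : ∑ p, rU u v w p = (TT u v w).card := by
  unfold rU
  rw [card_eq_sum_card_fiberwise (f := fun t : ι × ι × ι => t.2.1) (t := univ)]
  intro x _; simp

lemma sum_rV (u v w : ι → ℝ) : ∑ p, rV u v w p = (TT u v w).card := by
  unfold rV
  rw [card_eq_sum_card_fiberwise (f := fun t : ι × ι × ι => t.1) (t := univ)]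
  intro x _; simp

lemma sum_rW (u v w : ι → ℝ) : ∑ p, rW u v w p = (TT u v w).card := by
  unfold rW
  rw [card_eq_sum_card_fiberwise (f := fun t : ι × ι × ι => t.2.2) (t := univ)]
  intro x _; simp

lemma rU_rot (u v w : ι → ℝ) (p : ι) : rU v w u p = rV u v w p := by
  unfold rU rV
  refine card_bij' (fun t _ => (t.2.1, t.2.2, t.1)) (fun t _ => (t.2.2, t.1, t.2.1)) ?_ ?_
    (fun _ _ => rfl) (fun _ _ => rfl)
  · rintro ⟨k, i, j⟩ ht
    simp only [mem_filter] at ht ⊢
    exact ⟨TT_rot.1 ht.1, ht.2⟩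
  · rintro ⟨i, j, k⟩ ht
    simp only [mem_filter] at ht ⊢
    exact ⟨TT_rot.2 ht.1, ht.2⟩

lemma rV_rot (u v w : ι → ℝ) (p : ι) : rV v w u p = rW u v w p := by
  unfold rV rW
  refine card_bij' (fun t _ => (t.2.1, t.2.2, t.1)) (fun t _ => (t.2.2, t.1, t.2.1)) ?_ ?_
    (fun _ _ => rfl) (fun _ _ => rfl)
  · rintro ⟨k, i, j⟩ ht
    simp only [mem_filter] at ht ⊢
    exact ⟨TT_rot.1 ht.1, ht.2⟩
  · rintro ⟨i, j, k⟩ ht
    simp only [mem_filter] at ht ⊢
    exact ⟨TT_rot.2 ht.1, ht.2⟩

lemma rW_rot (u v w : ι → ℝ) (p : ι) : rW v w u p = rU u v w p := by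
  unfold rU rW
  refine card_bij' (fun t _ => (t.2.1, t.2.2, t.1)) (fun t _ => (t.2.2, t.1, t.2.1)) ?_ ?_
    (fun _ _ => rfl) (fun _ _ => rfl)
  · rintro ⟨k, i, j⟩ ht
    simp only [mem_filter] at ht ⊢
    exact ⟨TT_rot.1 ht.1, ht.2⟩
  · rintro ⟨i, j, k⟩ ht
    simp only [mem_filter] at ht ⊢
    exact ⟨TT_rot.2 ht.1, ht.2⟩

lemma TT_card_rot (u v w : ι → ℝ) : (TT v w u).card = (TT u v w).card := by
  rw [← sum_rU v w u, ← sum_rV u v w]
  exact sum_congr rfl fun p _ => rU_rot u v w p

section
variable {u v w : ι → ℝ} (hs : ∀ p, u p + v p + w p = 0)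
include hs

/-- the `W`-role points on the upper ray of `p` -/
lemma four_sets (hu : Function.Injective u) (hv : Function.Injective v)
    (hw : Function.Injective w) (p : ι) :
    2 * rU u v w p + 2 * rV u v w p ≤ Fintype.card ι - 1 := by
  -- four pairwise disjoint sets of points different from `p`
  let S1 : Finset ι := univ.filter fun x => u x < u p ∧ v x < v p
  let S2 : Finset ι := univ.filter fun x => u p < u x ∧ w p < w x
  let S3 : Finset ι := univ.filter fun x => u p < u x ∧ v p < v x
  let S4 : Finset ι := univ.filter fun x => w x < w p ∧ v x < v p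
  have m1 : ∀ x, x ∈ S1 ↔ u x < u p ∧ v x < v p := fun x => by simp [S1]
  have m2 : ∀ x, x ∈ S2 ↔ u p < u x ∧ w p < w x := fun x => by simp [S2]
  have m3 : ∀ x, x ∈ S3 ↔ u p < u x ∧ v p < v x := fun x => by simp [S3]
  have m4 : ∀ x, x ∈ S4 ↔ w x < w p ∧ v x < v p := fun x => by simp [S4]
  have a1 : rU u v w p ≤ S1.card := by
    apply card_le_card_of_injOn (fun t => t.1)
    · rintro ⟨i, j, k⟩ ht
      simp only [coe_filter, Set.mem_ofPred_eq] at ht
      obtain ⟨ht, rfl⟩ := ht
      have f := TT_facts hs ht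
      simp only [mem_coe, m1]
      constructor <;> linarith
    · rintro ⟨i, j, k⟩ ht ⟨i', j', k'⟩ ht' h
      simp only [coe_filter, Set.mem_ofPred_eq] at ht ht'
      obtain ⟨ht, rfl⟩ := ht
      obtain ⟨ht', rfl⟩ := ht'
      simp only at h; subst h
      have f := TT_facts hs ht
      have f' := TT_facts hs ht'
      have : k = k' := hw (by linarith)
      rw [this]
  have a2 : rU u v w p ≤ S2.card := by
    apply card_le_card_of_injOn (fun t => t.2.2)
    · rintro ⟨i, j, k⟩ ht
      simp only [coe_filter, Set.mem_ofPred_eq] at ht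
      obtain ⟨ht, rfl⟩ := ht
      have f := TT_facts hs ht
      simp only [mem_coe, m2]
      constructor <;> linarith
    · rintro ⟨i, j, k⟩ ht ⟨i', j', k'⟩ ht' h
      simp only [coe_filter, Set.mem_ofPred_eq] at ht ht'
      obtain ⟨ht, rfl⟩ := ht
      obtain ⟨ht', rfl⟩ := ht'
      simp only at h; subst h
      have f := TT_facts hs ht
      have f' := TT_facts hs ht'
      have : i = i' := hv (by linarith)
      rw [this]
  have a3 : rV u v w p ≤ S3.card := by
    apply card_le_card_of_injOn (fun t => t.2.1)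
    · rintro ⟨i, j, k⟩ ht
      simp only [coe_filter, Set.mem_ofPred_eq] at ht
      obtain ⟨ht, rfl⟩ := ht
      have f := TT_facts hs ht
      simp only [mem_coe, m3]
      constructor <;> linarith
    · rintro ⟨i, j, k⟩ ht ⟨i', j', k'⟩ ht' h
      simp only [coe_filter, Set.mem_ofPred_eq] at ht ht'
      obtain ⟨ht, rfl⟩ := ht
      obtain ⟨ht', rfl⟩ := ht'
      simp only at h; subst h
      have f := TT_facts hs ht
      have f' := TT_facts hs ht'
      have : k = k' := hw (by linarith)
      rw [this]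
  have a4 : rV u v w p ≤ S4.card := by
    apply card_le_card_of_injOn (fun t => t.2.2)
    · rintro ⟨i, j, k⟩ ht
      simp only [coe_filter, Set.mem_ofPred_eq] at ht
      obtain ⟨ht, rfl⟩ := ht
      have f := TT_facts hs ht
      simp only [mem_coe, m4]
      constructor <;> linarith
    · rintro ⟨i, j, k⟩ ht ⟨i', j', k'⟩ ht' h
      simp only [coe_filter, Set.mem_ofPred_eq] at ht ht'
      obtain ⟨ht, rfl⟩ := ht
      obtain ⟨ht', rfl⟩ := ht'
      simp only at h; subst h
      have f := TT_facts hs ht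
      have f' := TT_facts hs ht'
      have : j = j' := hu (by linarith)
      rw [this]
  have d12 : Disjoint S1 S2 := by
    rw [disjoint_left]; intro x h h'
    rw [m1] at h; rw [m2] at h'; linarith
  have d34 : Disjoint S3 S4 := by
    rw [disjoint_left]; intro x h h'
    rw [m3] at h; rw [m4] at h'; linarith
  have d1234 : Disjoint (S1 ∪ S2) (S3 ∪ S4) := by
    rw [disjoint_left]; intro x h h'
    have hx := hs x
    have hp := hs p
    rw [mem_union, m1, m2] at h
    rw [mem_union, m3, m4] at h'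
    rcases h with h | h <;> rcases h' with h' | h' <;> linarith
  have hsub : (S1 ∪ S2) ∪ (S3 ∪ S4) ⊆ univ.erase p := by
    intro x h
    rw [mem_erase]
    refine ⟨?_, mem_univ _⟩
    rintro rfl
    rw [mem_union, mem_union, mem_union, m1, m2, m3, m4] at h
    rcases h with (h | h) | (h | h) <;> linarith [h.1, h.2]
  have hc := card_le_card hsub
  rw [card_union_of_disjoint d1234, card_union_of_disjoint d12, card_union_of_disjoint d34,
    card_erase_of_mem (mem_univ _), card_univ] at hc
  omega

lemma sum_Bp (hu : Function.Injective u) (hv : Function.Injective v)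
    (hw : Function.Injective w) :
    2 * ∑ p, Bp u v w p ≤ (Fintype.card ι - 1) * (Od u v w).card := by
  unfold Bp
  simp_rw [card_filter]
  rw [sum_comm]
  rw [mul_sum]
  calc ∑ q ∈ Od u v w, 2 * ∑ p, (if q.1 ∈ Is u v w p ∧ q.2 ∈ Js u v w p then 1 else 0)
      ≤ ∑ q ∈ Od u v w, (Fintype.card ι - 1) := by
        apply sum_le_sum
        intro q _
        have h4 := four_sets hs hu hv hw q.1
        have : ∑ p, (if q.1 ∈ Is u v w p ∧ q.2 ∈ Js u v w p then 1 else 0) ≤ rV u v w q.1 := by
          rw [← card_filter, ← Js_card hs hw]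
          apply card_le_card
          intro p hp
          simp only [mem_filter, mem_univ, true_and, Is, Js] at hp ⊢
          exact hp.1
        omega
    _ = (Fintype.card ι - 1) * (Od u v w).card := by
        rw [sum_const, smul_eq_mul, mul_comm]

omit hs in
lemma sum_Mp (hw : Function.Injective w) :
    ∑ p, Mp u v w p ≤ (Od u v w).card := by
  unfold Mp
  simp_rw [card_filter]
  rw [sum_comm, card_eq_sum_ones]
  apply sum_le_sum
  intro q _
  rw [← card_filter]
  rw [card_le_one]
  intro a ha b hb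
  simp only [mem_filter, mem_univ, true_and] at ha hb
  exact hw (by linarith)

omit hs in
lemma sum_Xp : ∑ p, Xp u v w p = (Od w u v).card + (Od v w u).card := by
  unfold Xp
  rw [sum_add_distrib]
  congr 1
  · rw [card_eq_sum_card_fiberwise (s := Od w u v) (f := fun t : ι × ι => t.1) (t := univ)
      (by intro x _; simp)]
    apply sum_congr rfl
    intro p _
    refine card_bij' (fun k _ => (p, k)) (fun q _ => q.2) ?_ ?_ (fun _ _ => rfl) ?_
    · intro k hk; simp only [mem_filter, mem_univ, true_and] at hk ⊢; exact ⟨hk, trivial⟩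
    · rintro ⟨a, b⟩ hq; simp only [mem_filter, mem_univ, true_and] at hq ⊢
      obtain ⟨h1, rfl⟩ := hq; exact h1
    · rintro ⟨a, b⟩ hq; simp only [mem_filter] at hq
      obtain ⟨h1, rfl⟩ := hq; rfl
  · rw [card_eq_sum_card_fiberwise (s := Od v w u) (f := fun t : ι × ι => t.2) (t := univ)
      (by intro x _; simp)]
    apply sum_congr rfl
    intro p _
    refine card_bij' (fun k _ => (k, p)) (fun q _ => q.1) ?_ ?_ (fun _ _ => rfl) ?_
    · intro k hk; simp only [mem_filter, mem_univ, true_and] at hk ⊢; exact ⟨hk, trivial⟩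
    · rintro ⟨a, b⟩ hq; simp only [mem_filter, mem_univ, true_and] at hq ⊢
      obtain ⟨h1, rfl⟩ := hq; exact h1
    · rintro ⟨a, b⟩ hq; simp only [mem_filter] at hq
      obtain ⟨h1, rfl⟩ := hq; rfl

lemma sum_min (hu : Function.Injective u) (hv : Function.Injective v)
    (hw : Function.Injective w) :
    4 * ∑ p, (min (rU u v w p) (rV u v w p)) ^ 2 ≤ (Fintype.card ι - 1) *
      (11 * (Od u v w).card + 3 * (Od v w u).card + 3 * (Od w u v).card) := by
  have h1 : ∀ p, 4 * (min (rU u v w p) (rV u v w p)) ^ 2 ≤ 12 * Bp u v w p +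
      (Fintype.card ι - 1) * (5 * Mp u v w p + 3 * Xp u v w p) := by
    intro p
    have hl := local_ineq hs hu hv hw p
    have h4 := four_sets hs hu hv hw p
    have hμ : 4 * min (rU u v w p) (rV u v w p) ≤ Fintype.card ι - 1 := by omega
    have := Nat.mul_le_mul_left (5 * Mp u v w p + 3 * Xp u v w p) hμ
    nlinarith
  have hB := sum_Bp hs hu hv hw
  have hM := sum_Mp (u := u) (v := v) hw
  have hX := sum_Xp (u := u) (v := v) (w := w)
  calc 4 * ∑ p, (min (rU u v w p) (rV u v w p)) ^ 2
      = ∑ p, 4 * (min (rU u v w p) (rV u v w p)) ^ 2 := by rw [mul_sum]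
    _ ≤ ∑ p, (12 * Bp u v w p + (Fintype.card ι - 1) * (5 * Mp u v w p + 3 * Xp u v w p)) :=
        sum_le_sum fun p _ => h1 p
    _ = 6 * (2 * ∑ p, Bp u v w p) + (Fintype.card ι - 1) *
          (5 * ∑ p, Mp u v w p + 3 * ∑ p, Xp u v w p) := by
        rw [sum_add_distrib, ← mul_sum, ← mul_sum, sum_add_distrib, ← mul_sum, ← mul_sum]
        ring
    _ ≤ 6 * ((Fintype.card ι - 1) * (Od u v w).card) + (Fintype.card ι - 1) *
          (5 * (Od u v w).card + 3 * ((Od w u v).card + (Od v w u).card)) := by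
        rw [hX]
        gcongr
    _ = _ := by ring

end

/-- total number of ordinary pairs -/
noncomputable def NO (u v w : ι → ℝ) : ℕ :=
  (Od u v w).card + (Od v w u).card + (Od w u v).card

lemma sum_min_all {u v w : ι → ℝ} (hs : ∀ p, u p + v p + w p = 0) (hu : Function.Injective u)
    (hv : Function.Injective v) (hw : Function.Injective w) :
    4 * ∑ p, ((min (rU u v w p) (rV u v w p)) ^ 2 + (min (rV u v w p) (rW u v w p)) ^ 2 +
      (min (rW u v w p) (rU u v w p)) ^ 2) ≤ 17 * ((Fintype.card ι - 1) * NO u v w) := by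
  have h1 := sum_min hs hu hv hw
  have h2 := sum_min (u := v) (v := w) (w := u) (fun p => by linarith [hs p]) hv hw hu
  have h3 := sum_min (u := w) (v := u) (w := v) (fun p => by linarith [hs p]) hw hu hv
  simp_rw [rU_rot u v w, rV_rot u v w] at h2
  simp_rw [rU_rot v w u, rV_rot v w u, rV_rot u v w, rW_rot u v w] at h3
  rw [sum_add_distrib, sum_add_distrib]
  unfold NO
  nlinarith

lemma Cp_card {u v w : ι → ℝ} (hs : ∀ p, u p + v p + w p = 0) (hw : Function.Injective w) :
    (Cp u v).card = (Od u v w).card + (TT u v w).card := by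
  rw [← card_filter_add_card_filter_not (s := Cp u v)
    (fun q : ι × ι => ∀ k, (q.1, q.2, k) ∉ TT u v w)]
  congr 1
  symm
  refine card_bij (fun t _ => (t.1, t.2.1)) ?_ ?_ ?_
  · rintro ⟨i, j, k⟩ ht
    have f := TT_facts hs ht
    simp only [mem_filter, mem_Cp, not_forall, not_not]
    exact ⟨⟨f.2.1, f.2.2.2.2.1⟩, k, ht⟩
  · rintro ⟨i, j, k⟩ ht ⟨i', j', k'⟩ ht' h
    simp only [Prod.mk.injEq] at h
    obtain ⟨rfl, rfl⟩ := h
    have f := TT_facts hs ht
    have f' := TT_facts hs ht'
    have : k = k' := hw (by linarith)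
    rw [this]
  · rintro ⟨i, j⟩ hq
    simp only [mem_filter, not_forall, not_not] at hq
    obtain ⟨_, k, hk⟩ := hq
    exact ⟨(i, j, k), hk, rfl⟩

lemma Cp_total {u v w : ι → ℝ} (hs : ∀ p, u p + v p + w p = 0) (hu : Function.Injective u)
    (hv : Function.Injective v) (hw : Function.Injective w) :
    2 * ((Cp u v).card + (Cp v w).card + (Cp w u).card) =
      Fintype.card ι * (Fintype.card ι - 1) := by
  have hoff : (univ : Finset ι).offDiag.card = Fintype.card ι * (Fintype.card ι - 1) := by
    rw [offDiag_card, card_univ]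
    rcases Fintype.card ι with _ | n
    · rfl
    · simp only [Nat.add_sub_cancel]
      rw [Nat.mul_add, mul_one, Nat.add_sub_cancel]
  rw [← hoff]
  have hsub : ∀ f g : ι → ℝ, (Cp f g).card =
      ∑ q ∈ (univ : Finset ι).offDiag, if f q.1 < f q.2 ∧ g q.1 < g q.2 then 1 else 0 := by
    intro f g
    rw [← card_filter]
    congr 1
    ext q
    simp only [Cp, mem_filter, mem_univ, true_and, mem_offDiag]
    constructor
    · intro h; exact ⟨fun h' => by rw [h'] at h; exact lt_irrefl _ h.1, h⟩
    · intro h; exact h.2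
  have hsub' : ∀ f g : ι → ℝ, (Cp f g).card =
      ∑ q ∈ (univ : Finset ι).offDiag, if f q.2 < f q.1 ∧ g q.2 < g q.1 then 1 else 0 := by
    intro f g
    rw [← card_filter]
    refine card_bij' (fun q _ => q.swap) (fun q _ => q.swap) ?_ ?_ (fun _ _ => rfl)
      (fun _ _ => rfl)
    · intro q hq
      simp only [Cp, mem_filter, mem_univ, true_and, mem_offDiag, Prod.fst_swap,
        Prod.snd_swap] at hq ⊢
      exact ⟨fun h' => by rw [h'] at hq; exact lt_irrefl _ hq.1, hq⟩
    · intro q hq
      simp only [Cp, mem_filter, mem_univ, true_and, mem_offDiag, Prod.fst_swap,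
        Prod.snd_swap] at hq ⊢
      exact hq.2
  have e : 2 * ((Cp u v).card + (Cp v w).card + (Cp w u).card) =
      ((Cp u v).card + (Cp v w).card + (Cp w u).card) +
      ((Cp u v).card + (Cp v w).card + (Cp w u).card) := by ring
  rw [e]
  nth_rewrite 1 [hsub u v, hsub v w, hsub w u]
  rw [hsub' u v, hsub' v w, hsub' w u]
  rw [← sum_add_distrib, ← sum_add_distrib, ← sum_add_distrib, ← sum_add_distrib,
    ← sum_add_distrib, card_eq_sum_ones]
  apply sum_congr rfl
  rintro ⟨a, b⟩ hq
  simp only [mem_offDiag, mem_univ, true_and] at hq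
  simp only
  have ha := hs a
  have hb := hs b
  rcases lt_or_gt_of_ne (fun h => hq (hu h)) with h1 | h1 <;>
  rcases lt_or_gt_of_ne (fun h => hq (hv h)) with h2 | h2 <;>
  rcases lt_or_gt_of_ne (fun h => hq (hw h)) with h3 | h3 <;>
  first
  | (exfalso; linarith)
  | simp [h1, h2, h3, not_lt.2 h1.le, not_lt.2 h2.le, not_lt.2 h3.le]

lemma NO_TT {u v w : ι → ℝ} (hs : ∀ p, u p + v p + w p = 0) (hu : Function.Injective u)
    (hv : Function.Injective v) (hw : Function.Injective w) :
    2 * NO u v w + 6 * (TT u v w).card = Fintype.card ι * (Fintype.card ι - 1) := by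
  have h := Cp_total hs hu hv hw
  rw [Cp_card hs hw, Cp_card (u := v) (v := w) (w := u) (fun p => by linarith [hs p]) hu,
    Cp_card (u := w) (v := u) (w := v) (fun p => by linarith [hs p]) hv,
    TT_card_rot v w u, TT_card_rot u v w] at h
  unfold NO
  linarith

/-- the main numerical inequality in terms of a three-colouring of the points -/
lemma sigma_ineq (r s g : ℕ) (hr : s ≤ r) (hg : g ≤ r) :
    2 * (s + g) ^ 2 ≤ 3 * ((min r s) ^ 2 + (min s g) ^ 2 + (min g r) ^ 2) := by
  rw [min_eq_right hr, min_eq_left hg]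
  rcases le_total s g with h | h
  · rw [min_eq_left h]; zify; nlinarith [sq_nonneg ((g : ℤ) - 2 * s)]
  · rw [min_eq_right h]; zify; nlinarith [sq_nonneg ((s : ℤ) - 2 * g)]

lemma TT_bound {u v w : ι → ℝ} (hs : ∀ p, u p + v p + w p = 0) (hu : Function.Injective u)
    (hv : Function.Injective v) (hw : Function.Injective w) :
    ∃ σ : ι → ℕ, (∀ p, 2 * (σ p) ^ 2 ≤ 3 * ((min (rU u v w p) (rV u v w p)) ^ 2 +
        (min (rV u v w p) (rW u v w p)) ^ 2 + (min (rW u v w p) (rU u v w p)) ^ 2)) ∧
      12 * (TT u v w).card ≤ (Fintype.card ι) ^ 2 + 3 * Fintype.card ι + 12 * ∑ p, σ p := by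
  let A : Finset ι := univ.filter fun p => rU u v w p ≤ rV u v w p ∧ rW u v w p ≤ rV u v w p
  let B : Finset ι := univ.filter fun p => p ∉ A ∧ rW u v w p ≤ rU u v w p
  let C : Finset ι := univ.filter fun p => p ∉ A ∧ p ∉ B
  have mA : ∀ p, p ∈ A ↔ rU u v w p ≤ rV u v w p ∧ rW u v w p ≤ rV u v w p := by
    intro p; simp [A]
  have mB : ∀ p, p ∈ B ↔ p ∉ A ∧ rW u v w p ≤ rU u v w p := by intro p; simp [B]
  have mC : ∀ p, p ∈ C ↔ p ∉ A ∧ p ∉ B := by intro p; simp [C]
  let σ : ι → ℕ := fun p => (if p ∈ A then 0 else rV u v w p) + (if p ∈ B then 0 else rU u v w p) +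
    (if p ∈ C then 0 else rW u v w p)
  refine ⟨σ, ?_, ?_⟩
  · intro p
    by_cases hA : p ∈ A
    · have hB : p ∉ B := fun h => ((mB p).1 h).1 hA
      have hC : p ∉ C := fun h => ((mC p).1 h).1 hA
      have h := (mA p).1 hA
      have := sigma_ineq (rV u v w p) (rW u v w p) (rU u v w p) h.2 h.1
      simp only [σ, hA, hB, hC, if_true, if_false]
      rw [zero_add, add_comm (rU u v w p)]
      linarith
    · by_cases hB : p ∈ B
      · have hC : p ∉ C := fun h => ((mC p).1 h).2 hB
        have h := ((mB p).1 hB).2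
        have hA' : rV u v w p ≤ rU u v w p := by
          rw [mA, not_and_or, not_le, not_le] at hA
          omega
        have := sigma_ineq (rU u v w p) (rV u v w p) (rW u v w p) hA' h
        simp only [σ, hA, hB, hC, if_true, if_false]
        rw [add_zero]
        linarith
      · have hC : p ∈ C := (mC p).2 ⟨hA, hB⟩
        have h1 : rU u v w p < rW u v w p := by
          rw [mB, not_and, not_le] at hB
          exact hB hA
        have h2 : rV u v w p ≤ rW u v w p := by
          rw [mA, not_and_or, not_le, not_le] at hA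
          omega
        have := sigma_ineq (rW u v w p) (rU u v w p) (rV u v w p) h1.le h2
        simp only [σ, hA, hB, hC, if_true, if_false]
        rw [add_zero, add_comm (rV u v w p)]
        linarith
  · -- splitting
    set F := TT u v w with hF
    have hsub : F ⊆ (F.filter fun t => t.1 ∈ A ∧ t.2.1 ∈ B ∧ t.2.2 ∈ C) ∪
        ((F.filter fun t => t.1 ∉ A) ∪ ((F.filter fun t => t.2.1 ∉ B) ∪
        (F.filter fun t => t.2.2 ∉ C))) := by
      intro t ht
      simp only [mem_union, mem_filter]
      tauto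
    have hc := card_le_card hsub
    have hc1 := card_union_le (F.filter fun t => t.1 ∈ A ∧ t.2.1 ∈ B ∧ t.2.2 ∈ C)
        ((F.filter fun t => t.1 ∉ A) ∪ ((F.filter fun t => t.2.1 ∉ B) ∪
        (F.filter fun t => t.2.2 ∉ C)))
    have hc2 := card_union_le (F.filter fun t => t.1 ∉ A) ((F.filter fun t => t.2.1 ∉ B) ∪
        (F.filter fun t => t.2.2 ∉ C))
    have hc3 := card_union_le (F.filter fun t => t.2.1 ∉ B) (F.filter fun t => t.2.2 ∉ C)
    have e1 : (F.filter fun t => t.1 ∉ A).card = ∑ p, (if p ∈ A then 0 else rV u v w p) := by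
      rw [card_eq_sum_card_fiberwise (f := fun t : ι × ι × ι => t.1) (t := univ)
        (by intro x _; simp)]
      apply sum_congr rfl
      intro p _
      rw [filter_filter]
      by_cases hp : p ∈ A
      · rw [if_pos hp, card_eq_zero, filter_eq_empty_iff]
        rintro t _ ⟨h1, h2⟩; rw [h2] at h1; exact h1 hp
      · rw [if_neg hp]
        unfold rV
        congr 1
        apply filter_congr
        intro t _
        constructor
        · intro h; exact h.2
        · intro h; exact ⟨by rw [h]; exact hp, h⟩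
    have e2 : (F.filter fun t => t.2.1 ∉ B).card = ∑ p, (if p ∈ B then 0 else rU u v w p) := by
      rw [card_eq_sum_card_fiberwise (f := fun t : ι × ι × ι => t.2.1) (t := univ)
        (by intro x _; simp)]
      apply sum_congr rfl
      intro p _
      rw [filter_filter]
      by_cases hp : p ∈ B
      · rw [if_pos hp, card_eq_zero, filter_eq_empty_iff]
        rintro t _ ⟨h1, h2⟩; rw [h2] at h1; exact h1 hp
      · rw [if_neg hp]
        unfold rU
        congr 1
        apply filter_congr
        intro t _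
        constructor
        · intro h; exact h.2
        · intro h; exact ⟨by rw [h]; exact hp, h⟩
    have e3 : (F.filter fun t => t.2.2 ∉ C).card = ∑ p, (if p ∈ C then 0 else rW u v w p) := by
      rw [card_eq_sum_card_fiberwise (f := fun t : ι × ι × ι => t.2.2) (t := univ)
        (by intro x _; simp)]
      apply sum_congr rfl
      intro p _
      rw [filter_filter]
      by_cases hp : p ∈ C
      · rw [if_pos hp, card_eq_zero, filter_eq_empty_iff]
        rintro t _ ⟨h1, h2⟩; rw [h2] at h1; exact h1 hp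
      · rw [if_neg hp]
        unfold rW
        congr 1
        apply filter_congr
        intro t _
        constructor
        · intro h; exact h.2
        · intro h; exact ⟨by rw [h]; exact hp, h⟩
    have hσ : ∑ p, σ p = (F.filter fun t => t.1 ∉ A).card + (F.filter fun t => t.2.1 ∉ B).card +
        (F.filter fun t => t.2.2 ∉ C).card := by
      rw [e1, e2, e3, ← sum_add_distrib, ← sum_add_distrib]
    -- the zero-sum bound
    have hz := zs_bound (A.image v) (B.image u) (C.image w)
    rw [card_image_of_injective _ hv, card_image_of_injective _ hu,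
      card_image_of_injective _ hw] at hz
    have hZ : (F.filter fun t => t.1 ∈ A ∧ t.2.1 ∈ B ∧ t.2.2 ∈ C).card ≤
        Z3 (A.image v) (B.image u) (C.image w) := by
      unfold Z3
      apply card_le_card_of_injOn (fun t => (v t.1, u t.2.1, w t.2.2))
      · rintro ⟨i, j, k⟩ ht
        simp only [coe_filter, Set.mem_ofPred_eq] at ht
        obtain ⟨ht, h1, h2, h3⟩ := ht
        have f := TT_facts hs ht
        simp only [coe_filter, Set.mem_ofPred_eq, mem_product]
        exact ⟨⟨mem_image_of_mem _ h1, mem_image_of_mem _ h2, mem_image_of_mem _ h3⟩, f.1⟩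
      · rintro ⟨i, j, k⟩ _ ⟨i', j', k'⟩ _ h
        simp only [Prod.mk.injEq] at h
        rw [hv h.1, hu h.2.1, hw h.2.2]
    have hABC : A.card + B.card + C.card = Fintype.card ι := by
      have h1 : Disjoint A B := by
        rw [disjoint_left]; intro x h h'; exact ((mB x).1 h').1 h
      have h2 : Disjoint (A ∪ B) C := by
        rw [disjoint_left]; intro x h h'
        rcases mem_union.1 h with h | h
        · exact ((mC x).1 h').1 h
        · exact ((mC x).1 h').2 h
      rw [← card_union_of_disjoint h1, ← card_union_of_disjoint h2, ← card_univ]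
      congr 1
      ext x
      simp only [mem_union, mem_univ, iff_true]
      by_cases hA : x ∈ A
      · exact Or.inl (Or.inl hA)
      by_cases hB : x ∈ B
      · exact Or.inl (Or.inr hB)
      · exact Or.inr ((mC x).2 ⟨hA, hB⟩)
    have hq : 3 * (A.card * B.card + B.card * C.card + C.card * A.card) ≤
        (Fintype.card ι) ^ 2 := by
      rw [← hABC]
      zify
      nlinarith [sq_nonneg ((A.card : ℤ) - B.card), sq_nonneg ((B.card : ℤ) - C.card),
        sq_nonneg ((C.card : ℤ) - A.card)]
    rw [hABC] at hz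
    rw [hσ]
    generalize A.card * B.card + B.card * C.card + C.card * A.card = q at hz hq
    generalize (Fintype.card ι) ^ 2 = n2 at hq
    omega

/-- the quadratic lower bound for the number of ordinary pairs -/
theorem NO_lower {u v w : ι → ℝ} (hs : ∀ p, u p + v p + w p = 0) (hu : Function.Injective u)
    (hv : Function.Injective v) (hw : Function.Injective w) (hn : 140 ≤ Fintype.card ι) :
    (Fintype.card ι) ^ 2 ≤ 1000 * NO u v w := by
  obtain ⟨σ, hσ1, hσ2⟩ := TT_bound hs hu hv hw
  have h1 := sum_min_all hs hu hv hw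
  have h2 := NO_TT hs hu hv hw
  set n := Fintype.card ι with hnn
  set N := NO u v w with hN
  set T := (TT u v w).card with hT
  set S := ∑ p, σ p with hS
  -- sum of squares
  have h3 : 8 * ∑ p, (σ p) ^ 2 ≤ 51 * ((n - 1) * N) := by
    have : ∑ p, 2 * (σ p) ^ 2 ≤ ∑ p, 3 * ((min (rU u v w p) (rV u v w p)) ^ 2 +
        (min (rV u v w p) (rW u v w p)) ^ 2 + (min (rW u v w p) (rU u v w p)) ^ 2) :=
      sum_le_sum fun p _ => hσ1 p
    rw [← mul_sum, ← mul_sum] at this
    omega
  have h4 : (S : ℝ) ^ 2 ≤ n * ∑ p, (σ p : ℝ) ^ 2 := by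
    have := sq_sum_le_card_mul_sum_sq (s := (univ : Finset ι)) (f := fun p => (σ p : ℝ))
    rw [card_univ] at this
    rw [hS]; push_cast; exact this
  by_contra hcon
  push Not at hcon
  have hn' : (140 : ℝ) ≤ n := by exact_mod_cast hn
  have c1 : (1000 : ℝ) * N < (n : ℝ) ^ 2 := by exact_mod_cast hcon
  have hn1 : ((n - 1 : ℕ) : ℝ) = (n : ℝ) - 1 := by
    rw [Nat.cast_sub (by omega)]; simp
  have c2 : 8 * ∑ p, (σ p : ℝ) ^ 2 ≤ 51 * (((n : ℝ) - 1) * N) := by
    rw [← hn1]; exact_mod_cast h3
  have c3 : 2 * (N : ℝ) + 6 * T = n * (n - 1) := by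
    rw [← hn1]; exact_mod_cast h2
  have c4 : 12 * (T : ℝ) ≤ (n : ℝ) ^ 2 + 3 * n + 12 * S := by exact_mod_cast hσ2
  have hN0 : (0 : ℝ) ≤ N := by positivity
  have hS0 : (0 : ℝ) ≤ S := by positivity
  -- lower bound for S
  have c5 : (0.08 : ℝ) * (n : ℝ) ^ 2 ≤ S := by nlinarith
  have c6 : (S : ℝ) ^ 2 ≤ n * (51 / 8 * (((n : ℝ) - 1) * N)) := by
    refine h4.trans ?_
    apply mul_le_mul_of_nonneg_left _ (by positivity)
    linarith
  have c7 : n * (51 / 8 * (((n : ℝ) - 1) * N)) ≤ 51 / 8 * (n : ℝ) ^ 2 * N := by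
    nlinarith [mul_nonneg (show (0:ℝ) ≤ n by positivity) hN0]
  have c8 : (0.08 * (n : ℝ) ^ 2) ^ 2 ≤ (S : ℝ) ^ 2 := by
    apply pow_le_pow_left₀ (by positivity) c5
  have c9 : 51 / 8 * (n : ℝ) ^ 2 * N < 51 / 8 * (n : ℝ) ^ 2 * ((n : ℝ) ^ 2 / 1000) := by
    apply mul_lt_mul_of_pos_left _ (by positivity)
    linarith
  have c10 : (0 : ℝ) < (n : ℝ) ^ 2 * (n : ℝ) ^ 2 := by positivity
  nlinarith

end Pool.Agent.W_MP_e1f0eb_co
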