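import Pool.Agent.W_MP_e1f0eb_co.Defs
import Pool.Agent.W_MP_e1f0eb_co.Global

open Finset Classical

namespace Pool.Agent.W_MP_e1f0eb_co

lemma mem_tropLine {c p : ℝ × ℝ} : p ∈ tropLine c ↔ (p.1 ≤ c.1 ∧ p.2 = c.2) ∨
    (p.1 = c.1 ∧ p.2 ≤ c.2) ∨ (c.1 ≤ p.1 ∧ p.2 - c.2 = p.1 - c.1) := Iff.rfl

/-- general position: no two points on a common horizontal, vertical or slope 1 line -/
def GP (P : Finset (ℝ × ℝ)) : Prop :=
  (∀ a ∈ P, ∀ b ∈ P, a.1 = b.1 → a = b) ∧ (∀ a ∈ P, ∀ b ∈ P, a.2 = b.2 → a = b) ∧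
  (∀ a ∈ P, ∀ b ∈ P, a.2 - a.1 = b.2 - b.1 → a = b)

lemma exists_center (a b : ℝ × ℝ) : ∃ c, a ∈ tropLine c ∧ b ∈ tropLine c := by
  rcases le_total a.1 b.1 with h1 | h1 <;> rcases le_total a.2 b.2 with h2 | h2
  · rcases le_total (a.2 - a.1) (b.2 - b.1) with h3 | h3
    · refine ⟨(a.1, a.1 + (b.2 - b.1)), Or.inr (Or.inl ⟨rfl, by simp only; linarith⟩),
        Or.inr (Or.inr ⟨h1, by simp only; ring⟩)⟩
    · refine ⟨(a.2 - (b.2 - b.1), a.2), Or.inl ⟨by simp only; linarith, rfl⟩,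
        Or.inr (Or.inr ⟨by simp only; linarith, by simp only; ring⟩)⟩
  · exact ⟨(b.1, a.2), Or.inl ⟨h1, rfl⟩, Or.inr (Or.inl ⟨rfl, h2⟩)⟩
  · exact ⟨(a.1, b.2), Or.inr (Or.inl ⟨rfl, h2⟩), Or.inl ⟨h1, rfl⟩⟩
  · rcases le_total (a.2 - a.1) (b.2 - b.1) with h3 | h3
    · refine ⟨(b.2 - (a.2 - a.1), b.2), 
        Or.inr (Or.inr ⟨by simp only; linarith, by simp only; ring⟩),
        Or.inl ⟨by simp only; linarith, rfl⟩⟩
    · refine ⟨(b.1, b.1 + (a.2 - a.1)), Or.inr (Or.inr ⟨h1, by simp only; ring⟩),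
        Or.inr (Or.inl ⟨rfl, by simp only; linarith⟩)⟩

lemma center_unique {a b c c' : ℝ × ℝ} (h1 : a.1 ≠ b.1) (h2 : a.2 ≠ b.2)
    (h3 : a.2 - a.1 ≠ b.2 - b.1) (ha : a ∈ tropLine c) (hb : b ∈ tropLine c)
    (ha' : a ∈ tropLine c') (hb' : b ∈ tropLine c') : c = c' := by
  obtain ⟨a1, a2⟩ := a
  obtain ⟨b1, b2⟩ := b
  obtain ⟨c1, c2⟩ := c
  obtain ⟨d1, d2⟩ := c'
  simp only [mem_tropLine] at *
  rcases ha with ⟨x1, x2⟩ | ⟨x1, x2⟩ | ⟨x1, x2⟩ <;>
  rcases hb with ⟨y1, y2⟩ | ⟨y1, y2⟩ | ⟨y1, y2⟩ <;>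
  first
  | exact absurd (by linarith) h1
  | exact absurd (by linarith) h2
  | exact absurd (by linarith) h3
  | (rcases ha' with ⟨z1, z2⟩ | ⟨z1, z2⟩ | ⟨z1, z2⟩ <;>
     rcases hb' with ⟨t1, t2⟩ | ⟨t1, t2⟩ | ⟨t1, t2⟩ <;>
     first
     | exact absurd (by linarith) h1
     | exact absurd (by linarith) h2
     | exact absurd (by linarith) h3
     | exact Prod.ext (by simp only; linarith) (by simp only; linarith))

/-- the points of `P` on the tropical line with center `c` -/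
noncomputable def on (P : Finset (ℝ × ℝ)) (c : ℝ × ℝ) : Finset (ℝ × ℝ) :=
  P.filter fun p => p ∈ tropLine c

lemma on_ncard (P : Finset (ℝ × ℝ)) (c : ℝ × ℝ) :
    (tropLine c ∩ (P : Set (ℝ × ℝ))).ncard = (on P c).card := by
  rw [← Set.ncard_coe_finset]
  congr 1
  ext x
  simp [on, and_comm]

lemma GP.unique {P : Finset (ℝ × ℝ)} (h : GP P) {a b c c' : ℝ × ℝ} (ha : a ∈ P) (hb : b ∈ P)
    (hab : a ≠ b) (h1 : a ∈ tropLine c) (h2 : b ∈ tropLine c) (h3 : a ∈ tropLine c')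
    (h4 : b ∈ tropLine c') : c = c' :=
  center_unique (fun e => hab (h.1 a ha b hb e)) (fun e => hab (h.2.1 a ha b hb e))
    (fun e => hab (h.2.2 a ha b hb e)) h1 h2 h3 h4

section rays
variable (P : Finset (ℝ × ℝ)) (c : ℝ × ℝ)

noncomputable def rL : Finset (ℝ × ℝ) := P.filter fun p => p.1 ≤ c.1 ∧ p.2 = c.2
noncomputable def rB : Finset (ℝ × ℝ) := P.filter fun p => p.1 = c.1 ∧ p.2 ≤ c.2
noncomputable def rD : Finset (ℝ × ℝ) := P.filter fun p => c.1 ≤ p.1 ∧ p.2 - c.2 = p.1 - c.1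

lemma on_eq : on P c = rL P c ∪ (rB P c ∪ rD P c) := by
  ext x
  simp only [on, rL, rB, rD, mem_filter, mem_union, mem_tropLine]
  tauto

variable {P c}

lemma rL_card (h : GP P) : (rL P c).card ≤ 1 := by
  rw [card_le_one]
  intro a ha b hb
  simp only [rL, mem_filter] at ha hb
  exact h.2.1 a ha.1 b hb.1 (by rw [ha.2.2, hb.2.2])

lemma rB_card (h : GP P) : (rB P c).card ≤ 1 := by
  rw [card_le_one]
  intro a ha b hb
  simp only [rB, mem_filter] at ha hb
  exact h.1 a ha.1 b hb.1 (by rw [ha.2.1, hb.2.1])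

lemma rD_card (h : GP P) : (rD P c).card ≤ 1 := by
  rw [card_le_one]
  intro a ha b hb
  simp only [rD, mem_filter] at ha hb
  exact h.2.2 a ha.1 b hb.1 (by linarith [ha.2.2, hb.2.2])

lemma on_card_le (h : GP P) : (on P c).card ≤ 3 := by
  rw [on_eq]
  have h1 := card_union_le (rL P c) (rB P c ∪ rD P c)
  have h2 := card_union_le (rB P c) (rD P c)
  have h3 := rL_card (c := c) h
  have h4 := rB_card (c := c) h
  have h5 := rD_card (c := c) h
  omega

lemma on_three (h : GP P) (hc : (on P c).card = 3) : ∃ i ∈ P, ∃ j ∈ P, ∃ k ∈ P,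
    i.2 = c.2 ∧ i.1 < c.1 ∧ j.1 = c.1 ∧ j.2 < c.2 ∧ c.1 < k.1 ∧ k.2 - c.2 = k.1 - c.1 := by
  have h3 := rL_card (c := c) h
  have h4 := rB_card (c := c) h
  have h5 := rD_card (c := c) h
  rw [on_eq] at hc
  have h1 := card_union_le (rL P c) (rB P c ∪ rD P c)
  have h2 := card_union_le (rB P c) (rD P c)
  obtain ⟨i, hi⟩ := card_eq_one.1 (show (rL P c).card = 1 by omega)
  obtain ⟨j, hj⟩ := card_eq_one.1 (show (rB P c).card = 1 by omega)
  obtain ⟨k, hk⟩ := card_eq_one.1 (show (rD P c).card = 1 by omega)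
  rw [hi, hj, hk] at hc
  have hij : i ≠ j := by
    rintro rfl
    have : ({i} ∪ ({i} ∪ {k}) : Finset (ℝ × ℝ)) = {i, k} := by ext x; simp
    rw [this] at hc
    have := card_le_two (a := i) (b := k)
    omega
  have hjk : j ≠ k := by
    rintro rfl
    have : ({i} ∪ ({j} ∪ {j}) : Finset (ℝ × ℝ)) = {i, j} := by ext x; simp
    rw [this] at hc
    have := card_le_two (a := i) (b := j)
    omega
  have mi : i ∈ rL P c := by rw [hi]; exact mem_singleton_self _
  have mj : j ∈ rB P c := by rw [hj]; exact mem_singleton_self _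
  have mk : k ∈ rD P c := by rw [hk]; exact mem_singleton_self _
  simp only [rL, mem_filter] at mi
  simp only [rB, mem_filter] at mj
  simp only [rD, mem_filter] at mk
  refine ⟨i, mi.1, j, mj.1, k, mk.1, mi.2.2, ?_, mj.2.1, ?_, ?_, mk.2.2⟩
  · refine lt_of_le_of_ne mi.2.1 fun e => hij (h.1 i mi.1 j mj.1 (by rw [e, mj.2.1]))
  · refine lt_of_le_of_ne mj.2.2 fun e => hij (h.2.1 i mi.1 j mj.1 (by rw [e, mi.2.2]))
  · refine lt_of_le_of_ne mk.2.1 fun e => hjk (h.1 j mj.1 k mk.1 (by rw [← e, mj.2.1]))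

end rays

/-- the zero-sum coordinates of the points of `P` -/
def cu (P : Finset (ℝ × ℝ)) (x : P) : ℝ := x.1.1
def cv (P : Finset (ℝ × ℝ)) (x : P) : ℝ := -x.1.2
def cw (P : Finset (ℝ × ℝ)) (x : P) : ℝ := x.1.2 - x.1.1

lemma csum (P : Finset (ℝ × ℝ)) (x : P) : cu P x + cv P x + cw P x = 0 := by
  simp only [cu, cv, cw]; ring

lemma cu_inj {P : Finset (ℝ × ℝ)} (h : GP P) : Function.Injective (cu P) :=
  fun a b e => Subtype.ext (h.1 _ a.2 _ b.2 e)

lemma cv_inj {P : Finset (ℝ × ℝ)} (h : GP P) : Function.Injective (cv P) :=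
  fun a b e => Subtype.ext (h.2.1 _ a.2 _ b.2 (neg_injective e))

lemma cw_inj {P : Finset (ℝ × ℝ)} (h : GP P) : Function.Injective (cw P) :=
  fun a b e => Subtype.ext (h.2.2 _ a.2 _ b.2 e)

/-- all centers of tropical lines through two points of `P` -/
noncomputable def cen (s : Finset (ℝ × ℝ)) : ℝ × ℝ :=
  if h : ∃ c, ∀ x ∈ s, x ∈ tropLine c then h.choose else 0

lemma cen_spec {P : Finset (ℝ × ℝ)} {s : Finset (ℝ × ℝ)} (hs : s ∈ P.powersetCard 2) :
    ∀ x ∈ s, x ∈ tropLine (cen s) := by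
  rw [mem_powersetCard, card_eq_two] at hs
  obtain ⟨_, a, b, _, rfl⟩ := hs
  obtain ⟨c, h1, h2⟩ := exists_center a b
  have hex : ∃ c, ∀ x ∈ ({a, b} : Finset (ℝ × ℝ)), x ∈ tropLine c := ⟨c, by
    intro x hx
    rw [mem_insert, mem_singleton] at hx
    rcases hx with rfl | rfl
    · exact h1
    · exact h2⟩
  unfold cen
  rw [dif_pos hex]
  exact hex.choose_spec

lemma fiber_eq {P : Finset (ℝ × ℝ)} (h : GP P) (c : ℝ × ℝ) :
    (P.powersetCard 2).filter (fun s => cen s = c) = (on P c).powersetCard 2 := by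
  ext s
  rw [mem_filter, mem_powersetCard, mem_powersetCard]
  constructor
  · rintro ⟨⟨h1, h2⟩, h3⟩
    refine ⟨?_, h2⟩
    intro x hx
    rw [on, mem_filter]
    refine ⟨h1 hx, ?_⟩
    rw [← h3]
    exact cen_spec (mem_powersetCard.2 ⟨h1, h2⟩) x hx
  · rintro ⟨h1, h2⟩
    have h3 : s ⊆ P := h1.trans (filter_subset _ _)
    refine ⟨⟨h3, h2⟩, ?_⟩
    have hsp := cen_spec (mem_powersetCard.2 ⟨h3, h2⟩)
    obtain ⟨a, b, hab, rfl⟩ := card_eq_two.1 h2
    have ha : a ∈ ({a, b} : Finset (ℝ × ℝ)) := by simp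
    have hb : b ∈ ({a, b} : Finset (ℝ × ℝ)) := by simp
    exact h.unique (h3 ha) (h3 hb) hab (hsp a ha) (hsp b hb) (mem_filter.1 (h1 ha)).2
      (mem_filter.1 (h1 hb)).2

noncomputable def cens (P : Finset (ℝ × ℝ)) : Finset (ℝ × ℝ) := (P.powersetCard 2).image cen

lemma mem_cens {P : Finset (ℝ × ℝ)} (h : GP P) {c : ℝ × ℝ} (hc : 2 ≤ (on P c).card) :
    c ∈ cens P := by
  obtain ⟨s, hs, hs2⟩ := exists_subset_card_eq hc
  have : s ∈ (P.powersetCard 2).filter (fun s => cen s = c) := by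
    rw [fiber_eq h c, mem_powersetCard]; exact ⟨hs, hs2⟩
  rw [mem_filter] at this
  exact mem_image.2 ⟨s, this.1, this.2⟩

lemma cens_card {P : Finset (ℝ × ℝ)} (h : GP P) {c : ℝ × ℝ} (hc : c ∈ cens P) :
    (on P c).card = 2 ∨ (on P c).card = 3 := by
  obtain ⟨s, hs, rfl⟩ := mem_image.1 hc
  have h2 : s ∈ (P.powersetCard 2).filter (fun s' => cen s' = cen s) :=
    mem_filter.2 ⟨hs, rfl⟩
  rw [fiber_eq h, mem_powersetCard] at h2
  have h3 := card_le_card h2.1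
  have h4 := on_card_le (c := cen s) h
  omega

lemma pair_count {P : Finset (ℝ × ℝ)} (h : GP P) :
    P.card.choose 2 = ((cens P).filter fun c => (on P c).card = 2).card +
      3 * ((cens P).filter fun c => (on P c).card = 3).card := by
  have h1 : P.card.choose 2 = ∑ c ∈ cens P, ((on P c).card).choose 2 := by
    rw [← card_powersetCard, card_eq_sum_card_fiberwise (f := cen) (t := cens P)
      (by intro s hs; exact mem_image_of_mem _ hs)]
    apply sum_congr rfl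
    intro c _
    rw [fiber_eq h c, card_powersetCard]
  rw [h1, card_filter, card_filter, mul_sum, ← sum_add_distrib]
  apply sum_congr rfl
  intro c hc
  rcases cens_card h hc with h2 | h2 <;> rw [h2] <;> rfl

lemma three_count {P : Finset (ℝ × ℝ)} (h : GP P) :
    ((cens P).filter fun c => (on P c).card = 3).card = (TT (cu P) (cv P) (cw P)).card := by
  symm
  refine card_bij (fun t _ => ((t.2.1 : ℝ × ℝ).1, (t.1 : ℝ × ℝ).2)) ?_ ?_ ?_
  · rintro ⟨i, j, k⟩ ht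
    have f := TT_facts (csum P) ht
    simp only [cu, cv, cw] at f
    have m3 : (on P ((j : ℝ × ℝ).1, (i : ℝ × ℝ).2)).card = 3 := by
      apply le_antisymm (on_card_le h)
      have hsub : ({(i : ℝ × ℝ), (j : ℝ × ℝ), (k : ℝ × ℝ)} : Finset (ℝ × ℝ)) ⊆
          on P ((j : ℝ × ℝ).1, (i : ℝ × ℝ).2) := by
        intro x hx
        simp only [mem_insert, mem_singleton] at hx
        rw [on, mem_filter, mem_tropLine]
        rcases hx with rfl | rfl | rfl
        · exact ⟨i.2, Or.inl ⟨by simp only; linarith, rfl⟩⟩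
        · exact ⟨j.2, Or.inr (Or.inl ⟨rfl, by simp only; linarith⟩)⟩
        · exact ⟨k.2, Or.inr (Or.inr ⟨by simp only; linarith, by simp only; linarith⟩)⟩
      have hcard : ({(i : ℝ × ℝ), (j : ℝ × ℝ), (k : ℝ × ℝ)} : Finset (ℝ × ℝ)).card = 3 := by
        rw [card_eq_three]
        refine ⟨i, j, k, ?_, ?_, ?_, rfl⟩
        · intro e; rw [e] at f; linarith
        · intro e; rw [e] at f; linarith
        · intro e; rw [e] at f; linarith
      rw [← hcard]
      exact card_le_card hsub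
    have m4 : 2 ≤ (on P ((j : ℝ × ℝ).1, (i : ℝ × ℝ).2)).card := by rw [m3]; norm_num
    rw [mem_filter]
    exact ⟨mem_cens h m4, m3⟩
  · rintro ⟨i, j, k⟩ ht ⟨i', j', k'⟩ ht' e
    simp only [Prod.mk.injEq] at e
    have h1 : j = j' := cu_inj h e.1
    have h2 : i = i' := Subtype.ext (h.2.1 _ i.2 _ i'.2 e.2)
    subst h1; subst h2
    have f := TT_facts (csum P) ht
    have f' := TT_facts (csum P) ht'
    have : k = k' := cw_inj h (by linarith)
    rw [this]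
  · intro c hc
    rw [mem_filter] at hc
    obtain ⟨i, hi, j, hj, k, hk, e1, e2, e3, e4, e5, e6⟩ := on_three h hc.2
    refine ⟨(⟨i, hi⟩, ⟨j, hj⟩, ⟨k, hk⟩), ?_, ?_⟩
    · rw [mem_TT]
      simp only [cu, cv, cw]
      refine ⟨by linarith, by linarith, by linarith, by linarith⟩
    · exact Prod.ext e3 e1

lemma ordCenters_eq {P : Finset (ℝ × ℝ)} (h : GP P) :
    ordCenters (P : Set (ℝ × ℝ)) = (((cens P).filter fun c => (on P c).card = 2 :
      Finset (ℝ × ℝ)) : Set (ℝ × ℝ)) := by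
  ext c
  simp only [ordCenters, Set.mem_ofPred_eq, coe_filter, on_ncard]
  constructor
  · intro hc; exact ⟨mem_cens h (by omega), hc⟩
  · intro hc; exact hc.2

/-- number of ordinary lines in general position -/
theorem numOrd_GP {P : Finset (ℝ × ℝ)} (h : GP P) :
    numOrd (P : Set (ℝ × ℝ)) = (NO (cu P) (cv P) (cw P) : ℕ) := by
  unfold numOrd
  rw [ordCenters_eq h, Set.encard_coe_eq_coe_finsetCard]
  congr 1
  have h1 := pair_count h
  have h2 := three_count h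
  have h3 := NO_TT (csum P) (cu_inj h) (cv_inj h) (cw_inj h)
  rw [Fintype.card_coe] at h3
  have h4 : P.card.choose 2 * 2 = P.card * (P.card - 1) := by
    rw [Nat.choose_two_right]
    exact Nat.div_mul_cancel (Nat.even_mul_pred_self _).two_dvd
  rw [h2] at h1
  omega

theorem numOrd_GP' {P : Finset (ℝ × ℝ)} (h : GP P) :
    ∃ N : ℕ, numOrd (P : Set (ℝ × ℝ)) = N ∧
      2 * N + 6 * (TT (cu P) (cv P) (cw P)).card = P.card * (P.card - 1) := by
  refine ⟨_, numOrd_GP h, ?_⟩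
  have h3 := NO_TT (csum P) (cu_inj h) (cv_inj h) (cw_inj h)
  rw [Fintype.card_coe] at h3
  exact h3

end Pool.Agent.W_MP_e1f0eb_co
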