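import Pool.Agent.W_MP_e1f0eb_co.Schur

open Finset Classical

namespace Pool.Agent.W_MP_e1f0eb_co

variable {ι : Type*} [Fintype ι]

/-- triples on a common tropical line (left, bottom, diagonal), in zero-sum coordinates -/
noncomputable def TT (u v w : ι → ℝ) : Finset (ι × ι × ι) :=
  univ.filter fun t => v t.1 + u t.2.1 + w t.2.2 = 0 ∧ w t.2.2 < w t.1 ∧ v t.1 < v t.2.1 ∧
    u t.2.1 < u t.2.2

/-- comparable pairs -/
noncomputable def Cp (f g : ι → ℝ) : Finset (ι × ι) :=
  univ.filter fun q => f q.1 < f q.2 ∧ g q.1 < g q.2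

/-- ordinary pairs of one colour -/
noncomputable def Od (u v w : ι → ℝ) : Finset (ι × ι) :=
  (Cp u v).filter fun q => ∀ k, (q.1, q.2, k) ∉ TT u v w

noncomputable def Is (u v w : ι → ℝ) (p : ι) : Finset ι :=
  univ.filter fun i => ∃ k, (i, p, k) ∈ TT u v w

noncomputable def Js (u v w : ι → ℝ) (p : ι) : Finset ι :=
  univ.filter fun j => ∃ k, (p, j, k) ∈ TT u v w

noncomputable def rU (u v w : ι → ℝ) (p : ι) : ℕ := ((TT u v w).filter fun t => t.2.1 = p).card
noncomputable def rV (u v w : ι → ℝ) (p : ι) : ℕ := ((TT u v w).filter fun t => t.1 = p).card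
noncomputable def rW (u v w : ι → ℝ) (p : ι) : ℕ := ((TT u v w).filter fun t => t.2.2 = p).card

lemma mem_TT {u v w : ι → ℝ} {i j k : ι} : (i, j, k) ∈ TT u v w ↔
    v i + u j + w k = 0 ∧ w k < w i ∧ v i < v j ∧ u j < u k := by
  simp [TT]

lemma TT_rot {u v w : ι → ℝ} {i j k : ι} : (k, i, j) ∈ TT v w u ↔ (i, j, k) ∈ TT u v w := by
  rw [mem_TT, mem_TT]
  constructor
  · rintro ⟨a, b, c, d⟩; exact ⟨by linarith, c, d, b⟩
  · rintro ⟨a, b, c, d⟩; exact ⟨by linarith, d, b, c⟩

lemma TT_rot' {u v w : ι → ℝ} {i j k : ι} : (j, k, i) ∈ TT w u v ↔ (i, j, k) ∈ TT u v w := by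
  rw [← TT_rot, TT_rot]

lemma mem_Cp {f g : ι → ℝ} {a b : ι} : (a, b) ∈ Cp f g ↔ f a < f b ∧ g a < g b := by
  simp [Cp]

lemma mem_Od {u v w : ι → ℝ} {a b : ι} : (a, b) ∈ Od u v w ↔
    (u a < u b ∧ v a < v b) ∧ ∀ k, (a, b, k) ∉ TT u v w := by
  simp [Od, mem_Cp]

section
variable {u v w : ι → ℝ} (hs : ∀ p, u p + v p + w p = 0)

include hs in
lemma TT_facts {i j k : ι} (h : (i, j, k) ∈ TT u v w) :
    v i + u j + w k = 0 ∧ u i < u j ∧ u j < u k ∧ v k < v i ∧ v i < v j ∧ w j < w k ∧ w k < w i := by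
  rw [mem_TT] at h
  have a := hs i; have b := hs j; have c := hs k
  refine ⟨h.1, by linarith, h.2.2.2, by linarith, h.2.2.1, by linarith, h.2.1⟩

include hs in
lemma Is_card (hw : Function.Injective w) (p : ι) : (Is u v w p).card = rU u v w p := by
  unfold rU
  symm
  refine card_bij (fun t _ => t.1) ?_ ?_ ?_
  · rintro ⟨i, j, k⟩ ht
    simp only [mem_filter] at ht
    obtain ⟨ht, rfl⟩ := ht
    simp only [Is, mem_filter, mem_univ, true_and]
    exact ⟨k, ht⟩
  · rintro ⟨i, j, k⟩ ht ⟨i', j', k'⟩ ht' h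
    simp only [mem_filter] at ht ht'
    obtain ⟨ht, rfl⟩ := ht
    obtain ⟨ht', rfl⟩ := ht'
    simp only at h
    subst h
    have a := (TT_facts hs ht).1
    have b := (TT_facts hs ht').1
    have : k = k' := hw (by linarith)
    rw [this]
  · intro i hi
    simp only [Is, mem_filter, mem_univ, true_and] at hi
    obtain ⟨k, hk⟩ := hi
    exact ⟨(i, p, k), by simp [hk], rfl⟩

include hs in
lemma Js_card (hw : Function.Injective w) (p : ι) : (Js u v w p).card = rV u v w p := by
  unfold rV
  symm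
  refine card_bij (fun t _ => t.2.1) ?_ ?_ ?_
  · rintro ⟨i, j, k⟩ ht
    simp only [mem_filter] at ht
    obtain ⟨ht, rfl⟩ := ht
    simp only [Js, mem_filter, mem_univ, true_and]
    exact ⟨k, ht⟩
  · rintro ⟨i, j, k⟩ ht ⟨i', j', k'⟩ ht' h
    simp only [mem_filter] at ht ht'
    obtain ⟨ht, rfl⟩ := ht
    obtain ⟨ht', rfl⟩ := ht'
    simp only at h
    subst h
    have a := (TT_facts hs ht).1
    have b := (TT_facts hs ht').1
    have : k = k' := hw (by linarith)
    rw [this]
  · intro j hj
    simp only [Js, mem_filter, mem_univ, true_and] at hj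
    obtain ⟨k, hk⟩ := hj
    exact ⟨(p, j, k), by simp [hk], rfl⟩
end

lemma diff_count (A B S : Finset ℝ) :
    ((A ×ˢ B).filter fun q => q.1 - q.2 ∈ S).card ≤ S.card * min A.card B.card := by
  rw [← Nat.mul_min_mul_left]
  apply le_min
  · rw [← card_product]
    apply card_le_card_of_injOn (fun q => (q.1 - q.2, q.1))
    · intro q hq
      simp only [coe_filter, mem_product, Set.mem_ofPred_eq] at hq
      simp only [coe_product, Set.mem_prod, mem_coe]
      exact ⟨hq.2, hq.1.1⟩
    · intro q _ q' _ h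
      simp only [Prod.mk.injEq] at h
      exact Prod.ext h.2 (by linarith [h.1, h.2])
  · rw [← card_product]
    apply card_le_card_of_injOn (fun q => (q.1 - q.2, q.2))
    · intro q hq
      simp only [coe_filter, mem_product, Set.mem_ofPred_eq] at hq
      simp only [coe_product, Set.mem_prod, mem_coe]
      exact ⟨hq.2, hq.1.2⟩
    · intro q _ q' _ h
      simp only [Prod.mk.injEq] at h
      exact Prod.ext (by linarith [h.1, h.2]) h.2

lemma good_count (D E : Finset ℝ) (hdis : Disjoint D E) :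
    ((D ×ˢ E).filter fun q => q.1 - q.2 ∈ D).card + ((D ×ˢ E).filter fun q => q.2 - q.1 ∈ E).card
      ≤ (GG (D ∪ E) D E).card := by
  have h1 : ((D ×ˢ E).filter fun q => q.1 - q.2 ∈ D).card ≤
      ((GG (D ∪ E) D E).filter fun q => q.1 + q.2 ∈ D).card := by
    apply card_le_card_of_injOn (fun q => (q.1 - q.2, q.2))
    · intro q hq
      simp only [coe_filter, mem_product, Set.mem_ofPred_eq] at hq
      simp only [GG, coe_filter, mem_filter, mem_product, Set.mem_ofPred_eq, sub_add_cancel,
        mem_union]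
      exact ⟨⟨⟨hq.2, hq.1.2⟩, Or.inl hq.1.1⟩, hq.1.1⟩
    · intro q _ q' _ h
      simp only [Prod.mk.injEq] at h
      exact Prod.ext (by linarith [h.1, h.2]) h.2
  have h2 : ((D ×ˢ E).filter fun q => q.2 - q.1 ∈ E).card ≤
      ((GG (D ∪ E) D E).filter fun q => ¬ (q.1 + q.2 ∈ D)).card := by
    apply card_le_card_of_injOn (fun q => (q.1, q.2 - q.1))
    · intro q hq
      simp only [coe_filter, mem_product, Set.mem_ofPred_eq] at hq
      simp only [GG, coe_filter, mem_filter, mem_product, Set.mem_ofPred_eq, add_sub_cancel,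
        mem_union]
      exact ⟨⟨⟨hq.1.1, hq.2⟩, Or.inr hq.1.2⟩, fun h => disjoint_left.1 hdis h hq.1.2⟩
    · intro q _ q' _ h
      simp only [Prod.mk.injEq] at h
      exact Prod.ext h.1 (by linarith [h.1, h.2])
  have h3 := card_filter_add_card_filter_not (s := GG (D ∪ E) D E) (fun q => q.1 + q.2 ∈ D)
  omega

noncomputable def Bp (u v w : ι → ℝ) (p : ι) : ℕ :=
  ((Od u v w).filter fun q => q.1 ∈ Is u v w p ∧ q.2 ∈ Js u v w p).card

noncomputable def Mp (u v w : ι → ℝ) (p : ι) : ℕ :=
  ((Od u v w).filter fun q => v q.1 + u q.2 + w p = 0).card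

noncomputable def Xp (u v w : ι → ℝ) (p : ι) : ℕ :=
  (univ.filter fun k => (p, k) ∈ Od w u v).card + (univ.filter fun k => (k, p) ∈ Od v w u).card

lemma local_arith {μ μ' t M X B : ℕ} (hμ1 : μ ≤ μ' + t) (hμ2 : μ' ≤ μ) (_ : t ≤ μ)
    (hM : t ≤ M) (hmain : μ' ^ 2 ≤ 3 * B + 3 * (t * μ' + X * μ')) :
    μ ^ 2 ≤ 3 * B + 5 * M * μ + 3 * X * μ := by
  have h0 : μ * μ ≤ (μ' + t) * μ := Nat.mul_le_mul_right _ hμ1
  have h5 : μ' * μ ≤ μ' * (μ' + t) := Nat.mul_le_mul_left _ hμ1
  have h6 : μ' * t ≤ μ * t := Nat.mul_le_mul_right _ hμ2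
  have h7 : t * μ' ≤ t * μ := Nat.mul_le_mul_left _ hμ2
  have h9 : X * μ' ≤ X * μ := Nat.mul_le_mul_left _ hμ2
  have h8 : t * μ ≤ M * μ := Nat.mul_le_mul_right _ hM
  have e1 : (μ' + t) * μ = μ' * μ + t * μ := by ring
  have e2 : μ' * (μ' + t) = μ' ^ 2 + μ' * t := by ring
  have e3 : μ * t = t * μ := by ring
  have e4 : μ ^ 2 = μ * μ := by ring
  have e5 : 5 * M * μ = 5 * (M * μ) := by ring
  have e6 : 3 * X * μ = 3 * (X * μ) := by ring
  rw [e4, e5, e6]
  rw [e1] at h0
  rw [e2] at h5
  rw [e3] at h6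
  omega

/-- the local inequality at a point -/
lemma local_ineq {u v w : ι → ℝ} (hs : ∀ p, u p + v p + w p = 0) (hu : Function.Injective u)
    (hv : Function.Injective v) (hw : Function.Injective w) (p : ι) :
    (min (rU u v w p) (rV u v w p)) ^ 2 ≤ 3 * Bp u v w p +
      5 * Mp u v w p * min (rU u v w p) (rV u v w p) +
      3 * Xp u v w p * min (rU u v w p) (rV u v w p) := by
  set I := Is u v w p with hI
  set J := Js u v w p with hJ
  set D := I.image (fun i => v p - v i) with hD
  set E := J.image (fun j => u j - u p) with hE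
  have hDinj : Function.Injective (fun i => v p - v i) := fun a b h => hv (by simpa using h)
  have hEinj : Function.Injective (fun j => u j - u p) := fun a b h => hu (by simpa using h)
  have hDc : D.card = rU u v w p := by
    rw [hD, card_image_of_injective _ hDinj, hI, Is_card hs hw]
  have hEc : E.card = rV u v w p := by
    rw [hE, card_image_of_injective _ hEinj, hJ, Js_card hs hw]
  have memI : ∀ i, i ∈ I ↔ ∃ k, (i, p, k) ∈ TT u v w := by intro i; simp [hI, Is]
  have memJ : ∀ j, j ∈ J ↔ ∃ k, (p, j, k) ∈ TT u v w := by intro i; simp [hJ, Js]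
  set D' := D \ E with hD'
  have hdis : Disjoint D' E := sdiff_disjoint
  have hposD : ∀ x ∈ D, 0 < x := by
    intro x hx
    rw [hD, mem_image] at hx
    obtain ⟨i, hi, rfl⟩ := hx
    obtain ⟨k, hk⟩ := (memI i).1 hi
    have := TT_facts hs hk
    linarith
  have hposE : ∀ x ∈ E, 0 < x := by
    intro x hx
    rw [hE, mem_image] at hx
    obtain ⟨j, hj, rfl⟩ := hx
    obtain ⟨k, hk⟩ := (memJ j).1 hj
    have := TT_facts hs hk
    linarith
  have hpos : ∀ x ∈ D' ∪ E, 0 < x := by
    intro x hx
    rcases mem_union.1 hx with h | h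
    · exact hposD x (sdiff_subset h)
    · exact hposE x h
  have hschur := schur_ineq D' E hdis hpos
  have hgood := good_count D' E hdis
  -- the exceptional set
  set K := (univ.filter fun k => (p, k) ∈ Od w u v) ∪ (univ.filter fun k => (k, p) ∈ Od v w u)
    with hK
  set X := K.image (fun k => w k - w p) with hX
  have hXc : X.card ≤ Xp u v w p := by
    refine (card_image_le).trans ?_
    exact card_union_le _ _
  -- overlaps
  have hM : (D ∩ E).card ≤ Mp u v w p := by
    unfold Mp
    apply card_le_card_of_injOn (fun x =>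
      if h : x ∈ D ∩ E then
        ((mem_image.1 (mem_inter.1 h).1).choose, (mem_image.1 (mem_inter.1 h).2).choose)
      else (p, p))
    · intro x hx
      have hx' : x ∈ D ∩ E := hx
      simp only [hx', dif_pos]
      have h1 := (mem_image.1 (mem_inter.1 hx').1).choose_spec
      have h2 := (mem_image.1 (mem_inter.1 hx').2).choose_spec
      generalize (mem_image.1 (mem_inter.1 hx').1).choose = i at h1
      generalize (mem_image.1 (mem_inter.1 hx').2).choose = j at h2
      simp only [coe_filter, Set.mem_ofPred_eq]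
      have hp := hs p
      have h0 : v i + u j + w p = 0 := by linarith [h1.2, h2.2]
      refine ⟨?_, h0⟩
      rw [mem_Od]
      obtain ⟨k₁, hk₁⟩ := (memI i).1 h1.1
      obtain ⟨k₂, hk₂⟩ := (memJ j).1 h2.1
      have f1 := TT_facts hs hk₁
      have f2 := TT_facts hs hk₂
      refine ⟨⟨by linarith, by linarith⟩, fun k hk => ?_⟩
      have f3 := TT_facts hs hk
      have : k = p := hw (by linarith)
      subst this
      linarith
    · intro x hx x' hx' h
      have hx1 : x ∈ D ∩ E := hx
      have hx1' : x' ∈ D ∩ E := hx'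
      simp only [hx1, hx1', dif_pos, Prod.mk.injEq] at h
      have h1 := (mem_image.1 (mem_inter.1 hx1).1).choose_spec
      have h2 := (mem_image.1 (mem_inter.1 hx1').1).choose_spec
      rw [← h1.2, ← h2.2, h.1]
  -- covering of the grid
  set Bad := (D' ×ˢ E).filter fun q => ∃ i j, (i, j) ∈ Od u v w ∧ i ∈ I ∧ j ∈ J ∧
    q.1 = v p - v i ∧ q.2 = u j - u p with hBad
  have hBadc : Bad.card ≤ Bp u v w p := by
    have : Bad ⊆ ((Od u v w).filter fun q => q.1 ∈ Is u v w p ∧ q.2 ∈ Js u v w p).image
        (fun q => (v p - v q.1, u q.2 - u p)) := by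
      intro q hq
      simp only [hBad, mem_filter] at hq
      obtain ⟨_, i, j, h1, h2, h3, h4, h5⟩ := hq
      rw [mem_image]
      refine ⟨(i, j), ?_, ?_⟩
      · rw [mem_filter]; exact ⟨h1, h2, h3⟩
      · exact Prod.ext h4.symm h5.symm
    exact (card_le_card this).trans card_image_le
  have hcov : D' ×ˢ E ⊆ Bad ∪ (((D' ×ˢ E).filter fun q => q.1 - q.2 ∈ D') ∪
      ((D' ×ˢ E).filter fun q => q.2 - q.1 ∈ E)) ∪
      (((D' ×ˢ E).filter fun q => q.1 - q.2 ∈ D ∩ E) ∪
      ((D' ×ˢ E).filter fun q => q.1 - q.2 ∈ X)) := by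
    rintro ⟨a, b⟩ hq
    have hq' := mem_product.1 hq
    simp only at hq'
    obtain ⟨i, hi, hia⟩ := mem_image.1 (mem_sdiff.1 hq'.1).1
    obtain ⟨j, hj, hjb⟩ := mem_image.1 hq'.2
    obtain ⟨k₁, hk₁⟩ := (memI i).1 hi
    obtain ⟨k₂, hk₂⟩ := (memJ j).1 hj
    have f1 := TT_facts hs hk₁
    have f2 := TT_facts hs hk₂
    have hp := hs p
    by_cases hod : (i, j) ∈ Od u v w
    · apply mem_union_left; apply mem_union_left
      rw [hBad, mem_filter]
      exact ⟨hq, i, j, hod, hi, hj, hia.symm, hjb.symm⟩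
    · rw [mem_Od] at hod
      push Not at hod
      obtain ⟨k, hk⟩ := hod ⟨by linarith, by linarith⟩
      have f3 := TT_facts hs hk
      have hwk : w k - w p = a - b := by linarith
      rcases lt_trichotomy a b with hab | hab | hab
      · -- a < b
        by_cases hod2 : (k, p) ∈ Od v w u
        · apply mem_union_right; apply mem_union_right
          rw [mem_filter]
          refine ⟨hq, ?_⟩
          rw [hX, mem_image]
          refine ⟨k, ?_, hwk⟩
          rw [hK, mem_union]; right; simp [hod2]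
        · rw [mem_Od] at hod2
          push Not at hod2
          obtain ⟨m, hm⟩ := hod2 ⟨by linarith, by linarith⟩
          rw [TT_rot] at hm
          apply mem_union_left; apply mem_union_right; apply mem_union_right
          rw [mem_filter]
          refine ⟨hq, ?_⟩
          rw [hE, mem_image]
          refine ⟨m, (memJ m).2 ⟨k, hm⟩, ?_⟩
          have f4 := TT_facts hs hm
          simp only
          linarith
      · exfalso
        have : k = p := hw (by linarith)
        subst this
        linarith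
      · by_cases hod2 : (p, k) ∈ Od w u v
        · apply mem_union_right; apply mem_union_right
          rw [mem_filter]
          refine ⟨hq, ?_⟩
          rw [hX, mem_image]
          refine ⟨k, ?_, hwk⟩
          rw [hK, mem_union]; left; simp [hod2]
        · rw [mem_Od] at hod2
          push Not at hod2
          obtain ⟨m, hm⟩ := hod2 ⟨by linarith, by linarith⟩
          rw [TT_rot'] at hm
          have f4 := TT_facts hs hm
          have hmD : a - b ∈ D := by
            rw [hD, mem_image]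
            exact ⟨m, (memI m).2 ⟨k, hm⟩, by linarith⟩
          by_cases hE' : a - b ∈ E
          · apply mem_union_right; apply mem_union_left
            rw [mem_filter]
            exact ⟨hq, mem_inter.2 ⟨hmD, hE'⟩⟩
          · apply mem_union_left; apply mem_union_right; apply mem_union_left
            rw [mem_filter]
            exact ⟨hq, mem_sdiff.2 ⟨hmD, hE'⟩⟩
  have hc1 := card_le_card hcov
  have hc2 := card_union_le (Bad ∪ (((D' ×ˢ E).filter fun q => q.1 - q.2 ∈ D') ∪
      ((D' ×ˢ E).filter fun q => q.2 - q.1 ∈ E)))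
      (((D' ×ˢ E).filter fun q => q.1 - q.2 ∈ D ∩ E) ∪
      ((D' ×ˢ E).filter fun q => q.1 - q.2 ∈ X))
  have hc3 := card_union_le Bad (((D' ×ˢ E).filter fun q => q.1 - q.2 ∈ D') ∪
      ((D' ×ˢ E).filter fun q => q.2 - q.1 ∈ E))
  have hc4 := card_union_le ((D' ×ˢ E).filter fun q => q.1 - q.2 ∈ D')
      ((D' ×ˢ E).filter fun q => q.2 - q.1 ∈ E)
  have hc5 := card_union_le ((D' ×ˢ E).filter fun q => q.1 - q.2 ∈ D ∩ E)
      ((D' ×ˢ E).filter fun q => q.1 - q.2 ∈ X)
  have hc6 := diff_count D' E (D ∩ E)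
  have hc7 := diff_count D' E X
  rw [card_product] at hc1
  have hD'c : D'.card + (D ∩ E).card = D.card := by
    rw [hD']; exact card_sdiff_add_card_inter _ _
  have hint : (D ∩ E).card ≤ E.card := card_le_card inter_subset_right
  have hXm : X.card * min D'.card E.card ≤ Xp u v w p * min D'.card E.card :=
    Nat.mul_le_mul_right _ hXc
  rw [← hDc, ← hEc]
  refine local_arith (μ' := min D'.card E.card) (t := (D ∩ E).card) ?_ ?_ ?_ hM ?_
  · omega
  · omega
  · omega
  · generalize D'.card * E.card = de at *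
    generalize (GG (D' ∪ E) D' E).card = gg at *
    generalize (D ∩ E).card * min D'.card E.card = tt at *
    generalize X.card * min D'.card E.card = xx at *
    generalize Xp u v w p * min D'.card E.card = xx' at *
    generalize (min D'.card E.card) ^ 2 = sq at *
    omega

end Pool.Agent.W_MP_e1f0eb_co
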