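import Mathlib

open Finset Classical

namespace Pool.Agent.W_MP_e1f0eb_co

/-- pairs `(x,y)` of `D × E` whose sum lies in `C` -/
noncomputable def GG (C D E : Finset ℝ) : Finset (ℝ × ℝ) :=
  (D ×ˢ E).filter fun q => q.1 + q.2 ∈ C

lemma GG_card_le (C D E : Finset ℝ) : (GG C D E).card ≤ D.card * E.card := by
  rw [← card_product]
  exact card_filter_le _ _

lemma GG_peel (C D E : Finset ℝ) (hD : D ⊆ C) (hE : E ⊆ C) (hdis : Disjoint D E)
    (hpos : ∀ x ∈ C, 0 < x) (hne : (D ∪ E).Nonempty) :
    ∃ D' E' : Finset ℝ, D' ⊆ D ∧ E' ⊆ E ∧ D'.card + E'.card + 1 = D.card + E.card ∧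
      (GG C D E).card ≤ (GG C D' E').card + (C.card - (D.card + E.card)) := by
  set c := (D ∪ E).max' hne with hc
  have hcm : c ∈ D ∪ E := max'_mem _ _
  have hmax : ∀ x ∈ D ∪ E, x ≤ c := fun x hx => le_max' _ _ hx
  have hcard : (C \ (D ∪ E)).card = C.card - (D.card + E.card) := by
    rw [card_sdiff_of_subset (union_subset hD hE), card_union_of_disjoint hdis]
  rcases mem_union.1 hcm with hcD | hcE
  · refine ⟨D.erase c, E, erase_subset _ _, Subset.rfl, ?_, ?_⟩
    · rw [card_erase_of_mem hcD]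
      have := card_pos.2 ⟨c, hcD⟩
      omega
    · rw [← hcard]
      have hsub : GG C D E ⊆ GG C (D.erase c) E ∪ ((C \ (D ∪ E)).image fun z => (c, z - c)) := by
        intro q hq
        simp only [GG, mem_filter, mem_product] at hq
        by_cases h : q.1 = c
        · apply mem_union_right
          rw [mem_image]
          refine ⟨q.1 + q.2, ?_, ?_⟩
          · rw [mem_sdiff]
            refine ⟨hq.2, fun hmem => ?_⟩
            have h1 := hmax _ hmem
            have h2 := hpos _ (hE hq.1.2)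
            linarith
          · ext <;> simp [h]
        · apply mem_union_left
          simp only [GG, mem_filter, mem_product, mem_erase]
          exact ⟨⟨⟨h, hq.1.1⟩, hq.1.2⟩, hq.2⟩
      calc _ ≤ _ := card_le_card hsub
        _ ≤ _ := (card_union_le _ _).trans (Nat.add_le_add_left card_image_le _)
  · refine ⟨D, E.erase c, Subset.rfl, erase_subset _ _, ?_, ?_⟩
    · rw [card_erase_of_mem hcE]
      have := card_pos.2 ⟨c, hcE⟩
      omega
    · rw [← hcard]
      have hsub : GG C D E ⊆ GG C D (E.erase c) ∪ ((C \ (D ∪ E)).image fun z => (z - c, c)) := by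
        intro q hq
        simp only [GG, mem_filter, mem_product] at hq
        by_cases h : q.2 = c
        · apply mem_union_right
          rw [mem_image]
          refine ⟨q.1 + q.2, ?_, ?_⟩
          · rw [mem_sdiff]
            refine ⟨hq.2, fun hmem => ?_⟩
            have h1 := hmax _ hmem
            have h2 := hpos _ (hD hq.1.1)
            linarith
          · ext <;> simp [h]
        · apply mem_union_left
          simp only [GG, mem_filter, mem_product, mem_erase]
          exact ⟨⟨hq.1.1, h, hq.1.2⟩, hq.2⟩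
      calc _ ≤ _ := card_le_card hsub
        _ ≤ _ := (card_union_le _ _).trans (Nat.add_le_add_left card_image_le _)

lemma GG_peel_iter (D E : Finset ℝ) (hdis : Disjoint D E)
    (hpos : ∀ x ∈ D ∪ E, 0 < x) (h : ℕ) (hh : h ≤ D.card + E.card) :
    ∃ D' E' : Finset ℝ, D' ⊆ D ∧ E' ⊆ E ∧ D'.card + E'.card + h = D.card + E.card ∧
      2 * (GG (D ∪ E) D E).card ≤ 2 * (GG (D ∪ E) D' E').card + h * (h - 1) := by
  induction h with
  | zero => exact ⟨D, E, Subset.rfl, Subset.rfl, by omega, by omega⟩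
  | succ h ih =>
    obtain ⟨D₁, E₁, hD₁, hE₁, hc, hle⟩ := ih (by omega)
    have hne : (D₁ ∪ E₁).Nonempty := by
      by_contra hcon
      rw [not_nonempty_iff_eq_empty, union_eq_empty] at hcon
      rw [hcon.1, hcon.2] at hc
      simp at hc
      omega
    obtain ⟨D₂, E₂, hD₂, hE₂, hc₂, hle₂⟩ := GG_peel (D ∪ E) D₁ E₁
      (hD₁.trans subset_union_left) (hE₁.trans subset_union_right)
      (disjoint_of_subset_left hD₁ (disjoint_of_subset_right hE₁ hdis)) hpos hne
    refine ⟨D₂, E₂, hD₂.trans hD₁, hE₂.trans hE₁, by omega, ?_⟩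
    rw [card_union_of_disjoint hdis] at hle₂
    have e1 : D.card + E.card - (D₁.card + E₁.card) = h := by omega
    rw [e1] at hle₂
    have e2 : (h + 1) * (h + 1 - 1) = h * (h - 1) + 2 * h := by
      rcases h with _ | h
      · simp
      · simp only [Nat.add_sub_cancel]; ring
    rw [e2]
    omega

lemma schur_arith (r s μ a b d e g g' h : ℤ) (ha0 : 0 ≤ a) (hb0 : 0 ≤ b)
    (har : r = d + a) (hbs : s = e + b) (hsum : a + b = h) (hμr : μ ≤ r) (hμs : μ ≤ s)
    (hle : 2 * g ≤ 2 * g' + (h * h - h)) (hG : g' ≤ d * e)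
    (hmu : μ ^ 2 * 4 ≤ 3 * (4 * μ * h - 3 * h ^ 2 + 2 * h)) :
    μ ^ 2 + 3 * g ≤ 3 * (r * s) := by
  have hx : μ * b ≤ r * b := mul_le_mul_of_nonneg_right hμr hb0
  have hy : μ * a ≤ s * a := mul_le_mul_of_nonneg_right hμs ha0
  have hde : d * e = r * s - r * b - s * a + a * b := by
    rw [har, hbs]; ring
  have hab4 : 4 * (a * b) ≤ h ^ 2 := by
    rw [← hsum]; nlinarith [sq_nonneg (a - b)]
  have hmh : μ * h = μ * a + μ * b := by rw [← hsum]; ring
  have hmh4 : 4 * μ * h = 4 * (μ * a + μ * b) := by rw [← hmh]; ring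
  rw [hmh4] at hmu
  have hh2 : h * h = h ^ 2 := by ring
  rw [hh2] at hle
  linarith

/-- the local additive inequality -/
lemma schur_ineq (D E : Finset ℝ) (hdis : Disjoint D E) (hpos : ∀ x ∈ D ∪ E, 0 < x) :
    (min D.card E.card) ^ 2 + 3 * (GG (D ∪ E) D E).card ≤ 3 * (D.card * E.card) := by
  have hμr : min D.card E.card ≤ D.card := min_le_left _ _
  have hμs : min D.card E.card ≤ E.card := min_le_right _ _
  obtain ⟨D', E', hD', hE', hc, hle⟩ := GG_peel_iter D E hdis hpos
    ((2 * (min D.card E.card) + 1) / 3) (by omega)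
  have hG := GG_card_le (D ∪ E) D' E'
  have h1 : D'.card ≤ D.card := card_le_card hD'
  have h2 : E'.card ≤ E.card := card_le_card hE'
  generalize (GG (D ∪ E) D E).card = g at *
  generalize (GG (D ∪ E) D' E').card = g' at *
  generalize hμ : min D.card E.card = μ at *
  generalize D.card = r at *
  generalize E.card = s at *
  generalize D'.card = d at *
  generalize E'.card = e at *
  have hh2 : ∀ h : ℕ, ((h * (h - 1) : ℕ) : ℤ) = h * h - h := by
    intro h
    rcases h with _ | h
    · simp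
    · simp only [Nat.add_sub_cancel]; push_cast; ring
  obtain ⟨q, hq⟩ : ∃ q, μ = 3 * q ∨ μ = 3 * q + 1 ∨ μ = 3 * q + 2 := ⟨μ / 3, by omega⟩
  have key : ∀ h : ℕ, (2 * μ + 1) / 3 = h →
      (μ : ℤ) ^ 2 * 4 ≤ 3 * (4 * μ * h - 3 * h ^ 2 + 2 * h) →
      (μ : ℤ) ^ 2 + 3 * g ≤ 3 * (r * s) := by
    intro h hh hmu
    subst hh
    refine schur_arith r s μ ((r : ℤ) - d) ((s : ℤ) - e) d e g g' _ (by omega) (by omega)
      (by ring) (by ring) ?_ (by omega) (by omega) ?_ (by exact_mod_cast hG) hmu
    · omega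
    · rw [← hh2]; exact_mod_cast hle
  have : (μ : ℤ) ^ 2 + 3 * g ≤ 3 * (r * s) := by
    have hq0 : (0 : ℤ) ≤ q := by positivity
    rcases hq with hq | hq | hq
    · apply key (2 * q) (by omega)
      rw [hq]; push_cast; nlinarith
    · apply key (2 * q + 1) (by omega)
      rw [hq]; push_cast; nlinarith
    · apply key (2 * q + 1) (by omega)
      rw [hq]; push_cast; nlinarith
  exact_mod_cast this

end Pool.Agent.W_MP_e1f0eb_co
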