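import Pool.Agent.W_MP_e1f0eb_co.Degen

open Finset Classical

namespace Pool.Agent.W_MP_e1f0eb_co

/-- a permutation of `[1,2m+1]` whose differences also fill an interval -/
structure Good (m : ℤ) (f : ℤ → ℤ) : Prop where
  m0 : 0 ≤ m
  maps : ∀ x ∈ Icc 1 (2 * m + 1), f x ∈ Icc 1 (2 * m + 1)
  inj : ∀ x ∈ Icc 1 (2 * m + 1), ∀ y ∈ Icc 1 (2 * m + 1), f x = f y → x = y
  dmaps : ∀ x ∈ Icc 1 (2 * m + 1), f x - x ∈ Icc (-m) m
  dinj : ∀ x ∈ Icc 1 (2 * m + 1), ∀ y ∈ Icc 1 (2 * m + 1), f x - x = f y - y → x = y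

/-- collinear triples of the graph of `f` -/
noncomputable def Tf (m : ℤ) (f : ℤ → ℤ) : Finset (ℤ × ℤ × ℤ) :=
  ((Icc 1 (2 * m + 1)) ×ˢ (Icc 1 (2 * m + 1)) ×ˢ (Icc 1 (2 * m + 1))).filter fun t =>
    f t.1 = t.2.1 + (f t.2.2 - t.2.2) ∧ f t.2.2 - t.2.2 < f t.1 - t.1 ∧ f t.2.1 < f t.1 ∧
    t.2.1 < t.2.2

lemma mem_Tf {m : ℤ} {f : ℤ → ℤ} {a b c : ℤ} : (a, b, c) ∈ Tf m f ↔
    (1 ≤ a ∧ a ≤ 2 * m + 1) ∧ (1 ≤ b ∧ b ≤ 2 * m + 1) ∧ (1 ≤ c ∧ c ≤ 2 * m + 1) ∧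
    f a = b + (f c - c) ∧ f c - c < f a - a ∧ f b < f a ∧ b < c := by
  simp only [Tf, mem_filter, mem_product, mem_Icc]
  tauto

/-- base configuration -/
def f0 (m : ℤ) (x : ℤ) : ℤ := if x ≤ m then 2 * x else 2 * x - (2 * m + 1)

lemma good_f0 (m : ℤ) (hm : 0 ≤ m) : Good m (f0 m) := by
  refine ⟨hm, ?_, ?_, ?_, ?_⟩
  · intro x hx
    rw [mem_Icc] at hx ⊢
    unfold f0
    split_ifs <;> omega
  · intro x hx y hy h
    rw [mem_Icc] at hx hy
    unfold f0 at h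
    split_ifs at h <;> omega
  · intro x hx
    rw [mem_Icc] at hx ⊢
    unfold f0
    split_ifs <;> omega
  · intro x hx y hy h
    rw [mem_Icc] at hx hy
    unfold f0 at h
    split_ifs at h <;> omega

/-- the three-cluster step -/
def step (m : ℤ) (f : ℤ → ℤ) (x : ℤ) : ℤ :=
  if x ≤ 2 * m + 1 then f x + (2 * m + 1)
  else if x ≤ 2 * (2 * m + 1) then f (x - (2 * m + 1))
  else f (x - 2 * (2 * m + 1)) + 2 * (2 * m + 1)

lemma step_A {m : ℤ} {f : ℤ → ℤ} {x : ℤ} (h : x ≤ 2 * m + 1) :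
    step m f x = f x + (2 * m + 1) := by rw [step, if_pos h]

lemma step_B {m : ℤ} {f : ℤ → ℤ} {x : ℤ} (h0 : 1 ≤ x) (h : x ≤ 2 * m + 1) :
    step m f (x + (2 * m + 1)) = f x := by
  rw [step, if_neg (by omega), if_pos (by omega)]
  congr 1; ring

lemma step_C {m : ℤ} {f : ℤ → ℤ} {x : ℤ} (hm : 0 ≤ m) (h0 : 1 ≤ x) :
    step m f (x + 2 * (2 * m + 1)) = f x + 2 * (2 * m + 1) := by
  rw [step, if_neg (by omega), if_neg (by omega)]
  congr 2; ring

lemma three_cases {m x : ℤ} (hx : 1 ≤ x ∧ x ≤ 2 * (3 * m + 1) + 1) :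
    (1 ≤ x ∧ x ≤ 2 * m + 1) ∨ (∃ y, x = y + (2 * m + 1) ∧ 1 ≤ y ∧ y ≤ 2 * m + 1) ∨
    (∃ y, x = y + 2 * (2 * m + 1) ∧ 1 ≤ y ∧ y ≤ 2 * m + 1) := by
  by_cases h1 : x ≤ 2 * m + 1
  · left; exact ⟨hx.1, h1⟩
  by_cases h2 : x ≤ 2 * (2 * m + 1)
  · right; left; exact ⟨x - (2 * m + 1), by ring, by omega, by omega⟩
  · right; right; exact ⟨x - 2 * (2 * m + 1), by ring, by omega, by omega⟩

lemma good_step {m : ℤ} {f : ℤ → ℤ} (h : Good m f) : Good (3 * m + 1) (step m f) := by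
  have hm := h.m0
  have hmaps : ∀ x, 1 ≤ x → x ≤ 2 * m + 1 → 1 ≤ f x ∧ f x ≤ 2 * m + 1 := by
    intro x h1 h2; have := h.maps x (mem_Icc.2 ⟨h1, h2⟩); rwa [mem_Icc] at this
  have hd : ∀ x, 1 ≤ x → x ≤ 2 * m + 1 → -m ≤ f x - x ∧ f x - x ≤ m := by
    intro x h1 h2; have := h.dmaps x (mem_Icc.2 ⟨h1, h2⟩); rwa [mem_Icc] at this
  refine ⟨by omega, ?_, ?_, ?_, ?_⟩
  · intro x hx
    rw [mem_Icc] at hx ⊢
    rcases three_cases hx with ⟨h1, h2⟩ | ⟨y, rfl, h1, h2⟩ | ⟨y, rfl, h1, h2⟩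
    · rw [step_A h2]; have := hmaps x h1 h2; omega
    · rw [step_B h1 h2]; have := hmaps y h1 h2; omega
    · rw [step_C hm h1]; have := hmaps y h1 h2; omega
  · intro x hx x' hx' e
    rw [mem_Icc] at hx hx'
    rcases three_cases hx with ⟨h1, h2⟩ | ⟨y, rfl, h1, h2⟩ | ⟨y, rfl, h1, h2⟩ <;>
    rcases three_cases hx' with ⟨h1', h2'⟩ | ⟨y', rfl, h1', h2'⟩ | ⟨y', rfl, h1', h2'⟩
    · rw [step_A h2, step_A h2'] at e
      exact h.inj _ (mem_Icc.2 ⟨h1, h2⟩) _ (mem_Icc.2 ⟨h1', h2'⟩) (by omega)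
    · rw [step_A h2, step_B h1' h2'] at e
      have := hmaps _ h1 h2; have := hmaps _ h1' h2'; omega
    · rw [step_A h2, step_C hm h1'] at e
      have := hmaps _ h1 h2; have := hmaps _ h1' h2'; omega
    · rw [step_B h1 h2, step_A h2'] at e
      have := hmaps _ h1 h2; have := hmaps _ h1' h2'; omega
    · rw [step_B h1 h2, step_B h1' h2'] at e
      rw [h.inj _ (mem_Icc.2 ⟨h1, h2⟩) _ (mem_Icc.2 ⟨h1', h2'⟩) e]
    · rw [step_B h1 h2, step_C hm h1'] at e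
      have := hmaps _ h1 h2; have := hmaps _ h1' h2'; omega
    · rw [step_C hm h1, step_A h2'] at e
      have := hmaps _ h1 h2; have := hmaps _ h1' h2'; omega
    · rw [step_C hm h1, step_B h1' h2'] at e
      have := hmaps _ h1 h2; have := hmaps _ h1' h2'; omega
    · rw [step_C hm h1, step_C hm h1'] at e
      rw [h.inj _ (mem_Icc.2 ⟨h1, h2⟩) _ (mem_Icc.2 ⟨h1', h2'⟩) (by omega)]
  · intro x hx
    rw [mem_Icc] at hx ⊢
    rcases three_cases hx with ⟨h1, h2⟩ | ⟨y, rfl, h1, h2⟩ | ⟨y, rfl, h1, h2⟩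
    · rw [step_A h2]; have := hd x h1 h2; omega
    · rw [step_B h1 h2]; have := hd y h1 h2; omega
    · rw [step_C hm h1]; have := hd y h1 h2; omega
  · intro x hx x' hx' e
    rw [mem_Icc] at hx hx'
    rcases three_cases hx with ⟨h1, h2⟩ | ⟨y, rfl, h1, h2⟩ | ⟨y, rfl, h1, h2⟩ <;>
    rcases three_cases hx' with ⟨h1', h2'⟩ | ⟨y', rfl, h1', h2'⟩ | ⟨y', rfl, h1', h2'⟩
    · rw [step_A h2, step_A h2'] at e
      exact h.dinj _ (mem_Icc.2 ⟨h1, h2⟩) _ (mem_Icc.2 ⟨h1', h2'⟩) (by omega)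
    · rw [step_A h2, step_B h1' h2'] at e
      have := hd _ h1 h2; have := hd _ h1' h2'; omega
    · rw [step_A h2, step_C hm h1'] at e
      have := hd _ h1 h2; have := hd _ h1' h2'; omega
    · rw [step_B h1 h2, step_A h2'] at e
      have := hd _ h1 h2; have := hd _ h1' h2'; omega
    · rw [step_B h1 h2, step_B h1' h2'] at e
      rw [h.dinj _ (mem_Icc.2 ⟨h1, h2⟩) _ (mem_Icc.2 ⟨h1', h2'⟩) (by omega)]
    · rw [step_B h1 h2, step_C hm h1'] at e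
      have := hd _ h1 h2; have := hd _ h1' h2'; omega
    · rw [step_C hm h1, step_A h2'] at e
      have := hd _ h1 h2; have := hd _ h1' h2'; omega
    · rw [step_C hm h1, step_B h1' h2'] at e
      have := hd _ h1 h2; have := hd _ h1' h2'; omega
    · rw [step_C hm h1, step_C hm h1'] at e
      rw [h.dinj _ (mem_Icc.2 ⟨h1, h2⟩) _ (mem_Icc.2 ⟨h1', h2'⟩) (by omega)]

/-- pairs of `[1,2m+1]` at distance at most `m` -/
noncomputable def near (m : ℤ) : Finset (ℤ × ℤ) :=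
  ((Icc 1 (2 * m + 1)) ×ˢ (Icc 1 (2 * m + 1))).filter fun q => q.1 - q.2 ∈ Icc (-m) m

lemma near_card (m : ℕ) : 3 * m ^ 2 + 3 * m + 1 ≤ (near (m : ℤ)).card := by
  -- complement: pairs at distance more than m
  have hfar : ((Icc (1:ℤ) (2 * m + 1)) ×ˢ (Icc (1:ℤ) (2 * m + 1))).card =
      (2 * m + 1) * (2 * m + 1) := by
    rw [card_product, Int.card_Icc]
    congr 1 <;> omega
  have h1 := card_filter_add_card_filter_not
    (s := (Icc (1:ℤ) (2 * m + 1)) ×ˢ (Icc (1:ℤ) (2 * m + 1)))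
    (fun q : ℤ × ℤ => q.1 - q.2 ∈ Icc (-(m:ℤ)) m)
  have h2 : (((Icc (1:ℤ) (2 * m + 1)) ×ˢ (Icc (1:ℤ) (2 * m + 1))).filter
      fun q : ℤ × ℤ => ¬ (q.1 - q.2 ∈ Icc (-(m:ℤ)) m)).card ≤ m * (m + 1) := by
    -- injects into `[0,m) × [0,m]`
    have : ((range m) ×ˢ (range (m + 1))).card = m * (m + 1) := by
      rw [card_product, card_range, card_range]
    rw [← this]
    apply card_le_card_of_injOn (fun q : ℤ × ℤ =>
      if q.1 - q.2 > m then ((q.2 - 1).toNat, (q.1 - m - 1).toNat)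
      else ((q.2 - m - 2).toNat, (q.1 - 1).toNat))
    · intro q hq
      simp only [coe_filter, mem_product, mem_Icc, Set.mem_ofPred_eq, not_and, not_le] at hq
      simp only [coe_product, coe_range]
      split_ifs with h
      · simp only [Set.mem_prod, Set.mem_Iio]
        omega
      · simp only [Set.mem_prod, Set.mem_Iio]
        omega
    · rintro ⟨a, b⟩ hq ⟨a', b'⟩ hq' e
      simp only [coe_filter, mem_product, mem_Icc, Set.mem_ofPred_eq, not_and, not_le] at hq hq'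
      simp only at e
      split_ifs at e with h h' h'
      · simp only [Prod.mk.injEq] at e ⊢; omega
      · simp only [Prod.mk.injEq] at e ⊢; omega
      · simp only [Prod.mk.injEq] at e ⊢; omega
      · simp only [Prod.mk.injEq] at e ⊢; omega
  rw [hfar] at h1
  unfold near
  have e : (2 * m + 1) * (2 * m + 1) = 3 * m ^ 2 + 3 * m + 1 + m * (m + 1) := by ring
  rw [e] at h1
  omega

lemma Good.surj {m : ℕ} {f : ℤ → ℤ} (h : Good (m : ℤ) f) :
    (Icc (1:ℤ) (2 * m + 1)).image f = Icc (1:ℤ) (2 * m + 1) := by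
  apply eq_of_subset_of_card_le
  · intro y hy
    obtain ⟨x, hx, rfl⟩ := mem_image.1 hy
    exact h.maps x hx
  · rw [card_image_of_injOn]
    intro x hx y hy e
    exact h.inj x hx y hy e

lemma Good.dsurj {m : ℕ} {f : ℤ → ℤ} (h : Good (m : ℤ) f) :
    (Icc (1:ℤ) (2 * m + 1)).image (fun x => f x - x) = Icc (-(m:ℤ)) m := by
  apply eq_of_subset_of_card_le
  · intro y hy
    obtain ⟨x, hx, rfl⟩ := mem_image.1 hy
    exact h.dmaps x hx
  · rw [card_image_of_injOn]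
    · rw [Int.card_Icc, Int.card_Icc]; omega
    · intro x hx y hy e
      exact h.dinj x hx y hy e

/-- the recursion for the number of collinear triples -/
lemma Tf_step {m : ℕ} {f : ℤ → ℤ} (h : Good (m : ℤ) f) :
    3 * (Tf m f).card + (3 * m ^ 2 + 3 * m + 1) ≤ (Tf (3 * m + 1) (step m f)).card := by
  have hm := h.m0
  have hmaps : ∀ x, 1 ≤ x → x ≤ 2 * (m:ℤ) + 1 → 1 ≤ f x ∧ f x ≤ 2 * (m:ℤ) + 1 := by
    intro x h1 h2; have := h.maps x (mem_Icc.2 ⟨h1, h2⟩); rwa [mem_Icc] at this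
  have hd : ∀ x, 1 ≤ x → x ≤ 2 * (m:ℤ) + 1 → -(m:ℤ) ≤ f x - x ∧ f x - x ≤ m := by
    intro x h1 h2; have := h.dmaps x (mem_Icc.2 ⟨h1, h2⟩); rwa [mem_Icc] at this
  set k : ℤ := 2 * (m:ℤ) + 1 with hk
  set F := Tf (3 * (m:ℤ) + 1) (step m f) with hF
  -- four disjoint parts
  let FA := F.filter fun t => t.1 ≤ k ∧ t.2.1 ≤ k
  let FX := F.filter fun t => t.1 ≤ k ∧ ¬ t.2.1 ≤ k
  let FB := F.filter fun t => ¬ t.1 ≤ k ∧ t.1 ≤ 2 * k
  let FC := F.filter fun t => ¬ t.1 ≤ k ∧ ¬ t.1 ≤ 2 * k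
  have hsum : FA.card + FX.card + (FB.card + FC.card) = F.card := by
    have e1 := card_filter_add_card_filter_not (s := F) (fun t => t.1 ≤ k)
    have e2 := card_filter_add_card_filter_not (s := F.filter (fun t => t.1 ≤ k))
      (fun t => t.2.1 ≤ k)
    have e3 := card_filter_add_card_filter_not (s := F.filter (fun t => ¬ t.1 ≤ k))
      (fun t => t.1 ≤ 2 * k)
    rw [filter_filter, filter_filter] at e2 e3
    simp only [FA, FX, FB, FC]
    omega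
  have hA : (Tf m f).card ≤ FA.card := by
    apply card_le_card_of_injOn id
    · rintro ⟨a, b, c⟩ ht
      have ht' := mem_Tf.1 ht
      obtain ⟨⟨a1, a2⟩, ⟨b1, b2⟩, ⟨c1, c2⟩, e1, e2, e3, e4⟩ := ht'
      simp only [id, FA, coe_filter, Set.mem_ofPred_eq]
      refine ⟨?_, a2, b2⟩
      rw [hF, mem_Tf, step_A a2, step_A b2, step_A c2]
      omega
    · exact Function.injective_id.injOn
  have hB : (Tf m f).card ≤ FB.card := by
    apply card_le_card_of_injOn (fun t => (t.1 + k, t.2.1 + k, t.2.2 + k))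
    · rintro ⟨a, b, c⟩ ht
      have ht' := mem_Tf.1 ht
      obtain ⟨⟨a1, a2⟩, ⟨b1, b2⟩, ⟨c1, c2⟩, e1, e2, e3, e4⟩ := ht'
      simp only [FB, coe_filter, Set.mem_ofPred_eq]
      refine ⟨?_, by omega, by omega⟩
      rw [hF, mem_Tf, hk, step_B a1 a2, step_B b1 b2, step_B c1 c2]
      omega
    · rintro ⟨a, b, c⟩ _ ⟨a', b', c'⟩ _ e
      simp only [Prod.mk.injEq] at e ⊢
      omega
  have hC : (Tf m f).card ≤ FC.card := by
    apply card_le_card_of_injOn (fun t => (t.1 + 2 * k, t.2.1 + 2 * k, t.2.2 + 2 * k))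
    · rintro ⟨a, b, c⟩ ht
      have ht' := mem_Tf.1 ht
      obtain ⟨⟨a1, a2⟩, ⟨b1, b2⟩, ⟨c1, c2⟩, e1, e2, e3, e4⟩ := ht'
      simp only [FC, coe_filter, Set.mem_ofPred_eq]
      refine ⟨?_, by omega, by omega⟩
      rw [hF, mem_Tf, hk, step_C hm a1, step_C hm b1, step_C hm c1]
      omega
    · rintro ⟨a, b, c⟩ _ ⟨a', b', c'⟩ _ e
      simp only [Prod.mk.injEq] at e ⊢
      omega
  have hX : (near (m:ℤ)).card ≤ FX.card := by
    -- choose the preimages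
    have hsurj : ∀ y, 1 ≤ y → y ≤ k → ∃ x, (1 ≤ x ∧ x ≤ k) ∧ f x = y := by
      intro y h1 h2
      have : y ∈ (Icc (1:ℤ) (2 * m + 1)).image f := by rw [h.surj, mem_Icc]; exact ⟨h1, h2⟩
      obtain ⟨x, hx, e⟩ := mem_image.1 this
      exact ⟨x, mem_Icc.1 hx, e⟩
    have hdsurj : ∀ y, -(m:ℤ) ≤ y → y ≤ m → ∃ x, (1 ≤ x ∧ x ≤ k) ∧ f x - x = y := by
      intro y h1 h2
      have : y ∈ (Icc (1:ℤ) (2 * m + 1)).image (fun x => f x - x) := by
        rw [h.dsurj, mem_Icc]; exact ⟨h1, h2⟩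
      obtain ⟨x, hx, e⟩ := mem_image.1 this
      exact ⟨x, mem_Icc.1 hx, e⟩
    have hex : ∀ q : ℤ × ℤ, ∃ r : ℤ × ℤ, q ∈ near (m:ℤ) →
        (1 ≤ r.1 ∧ r.1 ≤ k) ∧ f r.1 = q.1 ∧ (1 ≤ r.2 ∧ r.2 ≤ k) ∧ f r.2 - r.2 = q.1 - q.2 := by
      intro q
      by_cases hq : q ∈ near (m:ℤ)
      · have hq' := hq
        simp only [near, mem_filter, mem_product, mem_Icc] at hq'
        obtain ⟨a, ha, ea⟩ := hsurj q.1 hq'.1.1.1 hq'.1.1.2
        obtain ⟨c, hc, ec⟩ := hdsurj (q.1 - q.2) hq'.2.1 hq'.2.2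
        exact ⟨(a, c), fun _ => ⟨ha, ea, hc, ec⟩⟩
      · exact ⟨0, fun h => absurd h hq⟩
    choose g hg using hex
    apply card_le_card_of_injOn (fun q => ((g q).1, q.2 + k, (g q).2 + 2 * k))
    · intro q hq
      have hq' : q ∈ near (m:ℤ) := hq
      have hgq := hg q hq'
      simp only [near, mem_filter, mem_product, mem_Icc] at hq'
      obtain ⟨⟨a1, a2⟩, ea, ⟨c1, c2⟩, ec⟩ := hgq
      have hb := hq'.1.2
      have hfb := hmaps q.2 hb.1 hb.2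
      have hfa := hd _ a1 a2
      have hfc := hd _ c1 c2
      simp only [FX, coe_filter, Set.mem_ofPred_eq]
      refine ⟨?_, a2, by omega⟩
      rw [hF, mem_Tf, hk, step_A a2, step_B hb.1 hb.2, step_C hm c1]
      omega
    · intro q hq q' hq' e
      simp only [Prod.mk.injEq] at e
      have h1 := hg q hq
      have h2 := hg q' hq'
      obtain ⟨e1, e2, e3⟩ := e
      apply Prod.ext
      · rw [← h1.2.1, ← h2.2.1, e1]
      · omega
  have hnear := near_card m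
  omega

end Pool.Agent.W_MP_e1f0eb_co
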