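import Pool.Agent.W_MP_e1f0eb_co.Upper

open Finset Classical

namespace Pool.Agent.W_MP_e1f0eb_co

/-- the iterated configuration -/
lemma exists_good (L m : ℕ) : ∃ (m' : ℕ) (f : ℤ → ℤ), 2 * m' + 1 = 3 ^ L * (2 * m + 1) ∧
    Good (m' : ℤ) f ∧
    9 ^ L * (2 * m + 1) ^ 2 + 3 ^ L ≤ 8 * (Tf m' f).card + 1 + 3 ^ L * (2 * m + 1) ^ 2 := by
  induction L with
  | zero =>
    refine ⟨m, f0 m, by ring, good_f0 _ (Int.natCast_nonneg m), ?_⟩
    simp only [pow_zero, one_mul]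
    omega
  | succ L ih =>
    obtain ⟨m', f, h1, h2, h3⟩ := ih
    refine ⟨3 * m' + 1, step m' f, ?_, ?_, ?_⟩
    · rw [pow_succ]; linarith
    · have := good_step h2
      push_cast
      exact this
    · have h4 := Tf_step h2
      push_cast
      have h5 : 4 * (3 * m' ^ 2 + 3 * m' + 1) = 3 * (2 * m' + 1) ^ 2 + 1 := by ring
      have h6 : (2 * m' + 1) ^ 2 = 9 ^ L * (2 * m + 1) ^ 2 := by
        rw [h1, mul_pow, ← pow_mul, mul_comm L 2, pow_mul]; norm_num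
      have h7 : (9:ℕ) ^ (L + 1) * (2 * m + 1) ^ 2 = 9 * (2 * m' + 1) ^ 2 := by
        rw [h6, pow_succ]; ring
      have h8 : (3:ℕ) ^ (L + 1) * (2 * m + 1) ^ 2 = 3 * (3 ^ L * (2 * m + 1) ^ 2) := by
        rw [pow_succ]; ring
      have h9 : (3:ℕ) ^ (L + 1) = 3 * 3 ^ L := by rw [pow_succ]; ring
      rw [h7, h8, h9]
      rw [← h6] at h3
      omega

/-- collinear triples in the plane -/
noncomputable def TP (P : Finset (ℝ × ℝ)) : Finset ((ℝ × ℝ) × (ℝ × ℝ) × (ℝ × ℝ)) :=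
  (P ×ˢ P ×ˢ P).filter fun t => t.1.2 = t.2.1.1 + (t.2.2.2 - t.2.2.1) ∧
     t.2.2.2 - t.2.2.1 < t.1.2 - t.1.1 ∧ t.2.1.2 < t.1.2 ∧ t.2.1.1 < t.2.2.1

lemma TP_card_le (P : Finset (ℝ × ℝ)) : (TP P).card ≤ (TT (cu P) (cv P) (cw P)).card := by
  refine le_trans (card_le_card (t := (TT (cu P) (cv P) (cw P)).image
    (fun t => ((t.1 : ℝ × ℝ), (t.2.1 : ℝ × ℝ), (t.2.2 : ℝ × ℝ)))) ?_) card_image_le
  rintro ⟨i, j, k⟩ ht
  simp only [TP, mem_filter, mem_product] at ht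
  obtain ⟨⟨hi, hj, hk⟩, e1, e2, e3, e4⟩ := ht
  refine mem_image.2 ⟨(⟨i, hi⟩, ⟨j, hj⟩, ⟨k, hk⟩), ?_, rfl⟩
  rw [mem_TT]
  simp only [cu, cv, cw]
  exact ⟨by linarith, by linarith, by linarith, by linarith⟩

lemma TP_mono {P P' : Finset (ℝ × ℝ)} (h : P ⊆ P') : (TP P).card ≤ (TP P').card := by
  apply card_le_card
  rintro ⟨i, j, k⟩ ht
  simp only [TP, mem_filter, mem_product] at ht ⊢
  exact ⟨⟨h ht.1.1, h ht.1.2.1, h ht.1.2.2⟩, ht.2⟩

lemma numOrd_TP {P : Finset (ℝ × ℝ)} (h : GP P) : ∃ N : ℕ, numOrd (P : Set (ℝ × ℝ)) = N ∧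
    2 * N + 6 * (TP P).card ≤ P.card * (P.card - 1) := by
  obtain ⟨N, h1, h2⟩ := numOrd_GP' h
  have h3 := TP_card_le P
  exact ⟨N, h1, by omega⟩

/-- the graph of `f` as a planar point set -/
noncomputable def Pf (m : ℤ) (f : ℤ → ℤ) : Finset (ℝ × ℝ) :=
  (Icc 1 (2 * m + 1)).image fun x : ℤ => ((x : ℝ), (f x : ℝ))

lemma Pf_card {m : ℕ} (f : ℤ → ℤ) : (Pf m f).card = 2 * m + 1 := by
  unfold Pf
  rw [card_image_of_injective, Int.card_Icc]
  · omega
  · intro x y e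
    simp only [Prod.mk.injEq] at e
    exact_mod_cast e.1

lemma Pf_GP {m : ℕ} {f : ℤ → ℤ} (h : Good (m : ℤ) f) : GP (Pf m f) := by
  unfold Pf
  refine ⟨?_, ?_, ?_⟩
  · intro a ha b hb e
    obtain ⟨x, hx, rfl⟩ := mem_image.1 ha
    obtain ⟨y, hy, rfl⟩ := mem_image.1 hb
    simp only at e
    have e' : x = y := by exact_mod_cast e
    rw [e']
  · intro a ha b hb e
    obtain ⟨x, hx, rfl⟩ := mem_image.1 ha
    obtain ⟨y, hy, rfl⟩ := mem_image.1 hb
    simp only at e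
    have e' : f x = f y := by exact_mod_cast e
    rw [h.inj x hx y hy e']
  · intro a ha b hb e
    obtain ⟨x, hx, rfl⟩ := mem_image.1 ha
    obtain ⟨y, hy, rfl⟩ := mem_image.1 hb
    simp only at e
    have e' : f x - x = f y - y := by exact_mod_cast e
    rw [h.dinj x hx y hy e']

lemma Tf_le_TP (m : ℕ) (f : ℤ → ℤ) : (Tf m f).card ≤ (TP (Pf m f)).card := by
  apply card_le_card_of_injOn (fun t => (((t.1 : ℝ), (f t.1 : ℝ)), ((t.2.1 : ℝ), (f t.2.1 : ℝ)),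
    ((t.2.2 : ℝ), (f t.2.2 : ℝ))))
  · rintro ⟨a, b, c⟩ ht
    have ht' := mem_Tf.1 ht
    obtain ⟨ha, hb, hc, e1, e2, e3, e4⟩ := ht'
    simp only [TP, mem_coe, mem_filter, mem_product]
    refine ⟨⟨mem_image.2 ⟨a, mem_Icc.2 ha, rfl⟩, mem_image.2 ⟨b, mem_Icc.2 hb, rfl⟩,
      mem_image.2 ⟨c, mem_Icc.2 hc, rfl⟩⟩, ?_, ?_, ?_, ?_⟩
    · exact_mod_cast e1
    · exact_mod_cast e2
    · exact_mod_cast e3
    · exact_mod_cast e4
  · rintro ⟨a, b, c⟩ _ ⟨a', b', c'⟩ _ e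
    simp only [Prod.mk.injEq] at e ⊢
    exact ⟨by exact_mod_cast e.1.1, by exact_mod_cast e.2.1.1, by exact_mod_cast e.2.2.1⟩

/-- one can always add a point far away -/
lemma GP.extend {P : Finset (ℝ × ℝ)} (h : GP P) :
    ∃ P' : Finset (ℝ × ℝ), P ⊆ P' ∧ P'.card = P.card + 1 ∧ GP P' := by
  set M : ℝ := ∑ p ∈ P, (|p.1| + |p.2|) with hM
  have hbd : ∀ p ∈ P, |p.1| ≤ M ∧ |p.2| ≤ M := by
    intro p hp
    have : |p.1| + |p.2| ≤ M :=
      single_le_sum (f := fun p : ℝ × ℝ => |p.1| + |p.2|) (fun i _ => by positivity) hp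
    have h1 := abs_nonneg p.1
    have h2 := abs_nonneg p.2
    exact ⟨by linarith, by linarith⟩
  have hM0 : 0 ≤ M := sum_nonneg (fun i _ => by positivity)
  have hx : ∀ p ∈ P, p.1 < M + 1 := by
    intro p hp
    have := (abs_le.1 (hbd p hp).1).2
    linarith
  have hy : ∀ p ∈ P, p.2 < 3 * M + 3 := by
    intro p hp
    have := (abs_le.1 (hbd p hp).2).2
    linarith
  have hz : ∀ p ∈ P, p.2 - p.1 < (3 * M + 3) - (M + 1) := by
    intro p hp
    have := (abs_le.1 (hbd p hp).2).2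
    have := (abs_le.1 (hbd p hp).1).1
    linarith
  refine ⟨insert (M + 1, 3 * M + 3) P, subset_insert _ _, ?_, ?_⟩
  · apply card_insert_of_notMem
    intro hq
    exact lt_irrefl _ (hx _ hq)
  · refine ⟨?_, ?_, ?_⟩
    · intro a ha b hb e
      rw [mem_insert] at ha hb
      rcases ha with rfl | ha <;> rcases hb with rfl | hb
      · rfl
      · exact absurd e (ne_of_gt (hx _ hb))
      · exact absurd e (ne_of_lt (hx _ ha))
      · exact h.1 a ha b hb e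
    · intro a ha b hb e
      rw [mem_insert] at ha hb
      rcases ha with rfl | ha <;> rcases hb with rfl | hb
      · rfl
      · exact absurd e (ne_of_gt (hy _ hb))
      · exact absurd e (ne_of_lt (hy _ ha))
      · exact h.2.1 a ha b hb e
    · intro a ha b hb e
      rw [mem_insert] at ha hb
      rcases ha with rfl | ha <;> rcases hb with rfl | hb
      · rfl
      · exact absurd e (ne_of_gt (hz _ hb))
      · exact absurd e (ne_of_lt (hz _ ha))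
      · exact h.2.2 a ha b hb e

lemma GP.extend_many {P : Finset (ℝ × ℝ)} (h : GP P) (r : ℕ) :
    ∃ P' : Finset (ℝ × ℝ), P ⊆ P' ∧ P'.card = P.card + r ∧ GP P' := by
  induction r with
  | zero => exact ⟨P, Subset.refl _, rfl, h⟩
  | succ r ih =>
    obtain ⟨P', h1, h2, h3⟩ := ih
    obtain ⟨P'', h4, h5, h6⟩ := h3.extend
    exact ⟨P'', h1.trans h4, by omega, h6⟩

/-- the basic upper bound -/
theorem upper_basic (L m r : ℕ) : ∃ N : ℕ, mTrop (3 ^ L * (2 * m + 1) + r) ≤ N ∧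
    8 * N + 3 * (9 ^ L * (2 * m + 1) ^ 2 + 3 ^ L) ≤
      4 * ((3 ^ L * (2 * m + 1) + r) * (3 ^ L * (2 * m + 1) + r - 1)) +
        3 * (1 + 3 ^ L * (2 * m + 1) ^ 2) := by
  obtain ⟨m', f, h1, h2, h3⟩ := exists_good L m
  obtain ⟨P', h4, h5, h6⟩ := (Pf_GP h2).extend_many r
  rw [Pf_card, h1] at h5
  obtain ⟨N, h7, h8⟩ := numOrd_TP h6
  refine ⟨N, ?_, ?_⟩
  · rw [← h7]
    exact iInf₂_le P' h5
  · have h9 := TP_mono h4
    have h10 := Tf_le_TP m' f
    rw [h5] at h8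
    generalize (3 ^ L * (2 * m + 1) + r) * (3 ^ L * (2 * m + 1) + r - 1) = X at *
    omega

/-- the exact count for powers of three -/
theorem upper_pow3 (j : ℕ) : mTrop (3 ^ j) ≤ (((3 ^ j - 1) * (3 ^ j - 3) / 8 : ℕ) : ℕ∞) := by
  obtain ⟨N, h1, h2⟩ := upper_basic j 0 0
  simp only [mul_zero, zero_add, mul_one, add_zero, one_pow] at h1 h2
  refine h1.trans ?_
  have h3 : (9:ℕ) ^ j = 3 ^ j * 3 ^ j := by rw [← mul_pow]; norm_num
  rw [h3] at h2
  have hpos : 0 < 3 ^ j := by positivity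
  obtain ⟨t, ht⟩ : ∃ t, 3 ^ j = t + 1 := ⟨3 ^ j - 1, by omega⟩
  rw [ht] at h2 ⊢
  have h4 : 8 * N ≤ t * (t + 1 - 3) := by
    rcases Nat.lt_or_ge t 2 with h | h
    · interval_cases t <;> omega
    · obtain ⟨u, rfl⟩ := Nat.exists_eq_add_of_le h
      have e1 : 2 + u + 1 - 1 = u + 2 := by omega
      have e2 : 2 + u + 1 - 3 = u := by omega
      rw [e1] at h2
      rw [e2]
      nlinarith
  have h5 : N ≤ (t + 1 - 1) * (t + 1 - 3) / 8 := by
    rw [Nat.le_div_iff_mul_le (by norm_num), Nat.add_sub_cancel]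
    omega
  exact_mod_cast h5

/-- the asymptotic upper bound -/
theorem upper_all (n : ℕ) : ∃ N : ℕ, mTrop n ≤ N ∧ (N : ℝ) ≤ n ^ 2 / 8 + 3 * n * √n := by
  rcases Nat.eq_zero_or_pos n with rfl | hn
  · obtain ⟨N, h1, h2⟩ := numOrd_TP (P := ∅) ⟨by simp, by simp, by simp⟩
    refine ⟨N, ?_, ?_⟩
    · rw [← h1]
      exact iInf₂_le ∅ card_empty
    · rw [card_empty] at h2
      have : N = 0 := by omega
      rw [this]; simp
  · set L := Nat.log 9 n with hL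
    have hL1 : 9 ^ L ≤ n := Nat.pow_log_le_self 9 (by omega)
    have hL2 : n < 9 ^ (L + 1) := Nat.lt_pow_succ_log_self (by norm_num) n
    set s := 3 ^ L with hs
    have hs0 : 0 < s := by positivity
    have h9 : 9 ^ L = s * s := by rw [hs, ← mul_pow]; norm_num
    set q := n / s with hq
    have hq1 : s * q ≤ n := Nat.mul_div_le n s
    have hq2 : n < s * (q + 1) := by
      rw [hq]
      have := Nat.lt_div_mul_add (a := n) hs0
      nlinarith [this]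
    have hsn : s ≤ n := by nlinarith
    have hq0 : 1 ≤ q := by
      rw [hq]; exact Nat.div_pos hsn hs0
    obtain ⟨m, hm1, hm2⟩ : ∃ m, 2 * m + 1 ≤ q ∧ q ≤ 2 * m + 2 := ⟨(q - 1) / 2, by omega, by omega⟩
    have hk1 : s * (2 * m + 1) ≤ n := le_trans (Nat.mul_le_mul_left _ hm1) hq1
    have hk2 : n < s * (2 * m + 3) := lt_of_lt_of_le hq2 (Nat.mul_le_mul_left _ (by omega))
    obtain ⟨r, hr⟩ := Nat.exists_eq_add_of_le hk1
    obtain ⟨N, h1, h2⟩ := upper_basic L m r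
    rw [← hs, ← hr] at h1 h2
    refine ⟨N, h1, ?_⟩
    rw [h9] at h2 hL1
    rw [pow_succ, h9] at hL2
    have h3 : (8:ℝ) * N + 3 * (s * s * (2 * m + 1) ^ 2 + s) ≤
        4 * (n * (n - 1)) + 3 * (1 + s * (2 * m + 1) ^ 2) := by
      have h2' : ((8 * N + 3 * (s * s * (2 * m + 1) ^ 2 + s) : ℕ) : ℝ) ≤
        ((4 * (n * (n - 1)) + 3 * (1 + s * (2 * m + 1) ^ 2) : ℕ) : ℝ) := by exact_mod_cast h2
      push_cast [Nat.cast_sub hn] at h2'
      exact h2'
    set R := √(n : ℝ) with hR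
    have hR0 : 0 ≤ R := Real.sqrt_nonneg _
    have hRR : R * R = n := Real.mul_self_sqrt (Nat.cast_nonneg n)
    have hn1 : (1:ℝ) ≤ n := by exact_mod_cast hn
    have hs1 : (1:ℝ) ≤ s := by exact_mod_cast hs0
    have hsR : (s:ℝ) ≤ R := by
      rw [hR]
      apply Real.le_sqrt_of_sq_le
      rw [sq]; exact_mod_cast hL1
    have hRs : R ≤ 3 * s := by
      rw [hR, Real.sqrt_le_left (by positivity)]
      have : (n:ℝ) ≤ s * s * 9 := by exact_mod_cast hL2.le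
      nlinarith
    set K : ℝ := 2 * m + 1 with hK
    have hK1 : (s:ℝ) * K ≤ n := by rw [hK]; exact_mod_cast hk1
    have hK2 : (n:ℝ) ≤ s * (K + 2) := by
      have : (n:ℝ) ≤ s * (2 * m + 3) := by exact_mod_cast hk2.le
      rw [hK]; linarith
    have hK0 : 0 ≤ K := by positivity
    have a1 : (n:ℝ) ^ 2 - 4 * s * n ≤ s * s * K ^ 2 := by
      have : 0 ≤ (n - s * K) ^ 2 := sq_nonneg _
      have h' : (n:ℝ) * (n - s * K) ≤ n * (2 * s) := by
        apply mul_le_mul_of_nonneg_left _ (by linarith)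
        linarith
      nlinarith
    have a2 : s * K ^ 2 ≤ 3 * (n * R) := by
      have b1 : s * (s * K ^ 2) ≤ s * (3 * (n * R)) := by
        have c1 : (s * K) * (s * K) ≤ n * n := mul_self_le_mul_self (by positivity) hK1
        have c2 : (n:ℝ) * n ≤ n * (3 * s * R) := by
          apply mul_le_mul_of_nonneg_left _ (by linarith)
          nlinarith
        nlinarith
      exact le_of_mul_le_mul_left b1 (by linarith)
    have a3 : (s:ℝ) * n ≤ R * n := mul_le_mul_of_nonneg_right hsR (by linarith)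
    have a4 : (0:ℝ) ≤ n * R := by positivity
    nlinarith

end Pool.Agent.W_MP_e1f0eb_co
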